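import Pool.Agent.N430.RT.A4

set_option autoImplicit false
set_option linter.all false

/-! The tail of the number of zeros near a point: the theorem. -/

namespace Pool.Agent.N430.RT

open Finset Polynomial Pool.Agent.N430.BP Pool.Agent.N430.BP.FF Pool.Agent.R410.NG

section
variable {k : Type} [Field k] [Fintype k]

open Classical in
/-- the pairs with many zeros near a point -/
noncomputable def many (k : Type) [Field k] [Fintype k] (N : ℕ) (f₀ : k[X][X]) (g : ℕ) (κ : ℝ) (z : ℂ)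
    (R : ℕ) : Finset (VV k N) :=
  univ.filter fun v : VV k N => ∃ (E : ED f₀ (v.1 : k[X]) (v.2 : k[X]) g (κ * N)) (S : Finset (Fin E.D)),
    (∀ i ∈ S, ‖E.α i / (Fintype.card k : ℂ) - z‖ ≤ 1 / N) ∧ R ≤ #S

/-- **Markov.** -/
lemma markov (h2 : ringChar k ≠ 2) {f₀ : k[X][X]} (hf : f₀.Monic) {n₀ : ℕ}
    (hn₀ : f₀.natDegree = n₀) (h3 : 3 ≤ n₀) (hodd : Odd n₀) {z : ℂ} (hz : ‖z‖ = 1) {M N m : ℕ}
    (hm : 1 ≤ m) (hN : (2 * m + 1) * M ≤ N) {R : ℝ} (hR : 0 < R) (s : Finset (VV k N))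
    (hs : ∀ v ∈ s, R / 2 ≤ TT f₀ M z ((v.1 : k[X]), (v.2 : k[X]))) :
    (#s : ℝ) ≤ (3072 * n₀ ^ 2 * m / R ^ 2) ^ m * (Fintype.card k : ℝ) ^ (2 * N) := by
  have h1 := TT_moment h2 hf hn₀ h3 hodd hz hm hN
  have h4 : (#s : ℝ) * (R / 2) ^ (2 * m) ≤
      ∑ v : VV k N, TT f₀ M z ((v.1 : k[X]), (v.2 : k[X])) ^ (2 * m) := by
    calc (#s : ℝ) * (R / 2) ^ (2 * m) = ∑ v ∈ s, (R / 2) ^ (2 * m) := by
          rw [Finset.sum_const, nsmul_eq_mul]
      _ ≤ ∑ v ∈ s, TT f₀ M z ((v.1 : k[X]), (v.2 : k[X])) ^ (2 * m) :=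
          Finset.sum_le_sum fun v hv => pow_le_pow_left₀ (by positivity) (hs v hv) _
      _ ≤ _ := Finset.sum_le_sum_of_subset_of_nonneg (subset_univ _) fun v _ _ => by
          rw [pow_mul]
          positivity
  have h5 := h4.trans h1
  have h6 : (0 : ℝ) < (R / 2) ^ (2 * m) := by positivity
  rw [← le_div_iff₀ h6] at h5
  refine h5.trans (le_of_eq ?_)
  have h7 : (R / 2) ^ (2 * m) = (R ^ 2 / 4) ^ m := by
    rw [pow_mul]
    congr 1
    ring
  rw [h7, mul_div_right_comm, ← div_pow]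
  congr 2
  field_simp
  ring

end

/-- **The tail of the number of zeros near a point.** -/
theorem main_rt (n₀ g : ℕ) (h3 : 3 ≤ n₀) (hodd : Odd n₀) (hg : g ≤ n₀) {κ : ℝ} (hκ : 1 ≤ κ) :
    ∃ c C : ℝ, 0 < c ∧ 0 < C ∧ ∀ (k : Type) [Field k] [Fintype k], ringChar k ≠ 2 →
      ∀ N : ℕ, 1 ≤ N → ∀ f₀ : k[X][X], f₀.Monic → f₀.natDegree = n₀ → ∀ z : ℂ, ‖z‖ = 1 →
      ∀ R : ℕ, 1 ≤ R →
        (#(many k N f₀ g κ z R) : ℝ) ≤ C * (R : ℝ) ^ (-(c * R)) * (Fintype.card k : ℝ) ^ (2 * N) := by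
  classical
  have hn : (3 : ℝ) ≤ n₀ := by exact_mod_cast h3
  set a : ℝ := (36 + 32 * n₀) * κ with ha
  have ha1 : 36 + 32 * (n₀ : ℝ) ≤ a := by
    rw [ha]
    nlinarith
  have ha0 : 0 < a := by linarith
  set R0 : ℝ := 8 * a + 144 * (n₀ : ℝ) ^ 2 with hR0
  have hR01 : 1 ≤ R0 := by nlinarith
  set c : ℝ := 1 / (32 * a) with hc
  have hc0 : 0 < c := by positivity
  have hC1 : 1 ≤ R0 ^ (c * R0) := Real.one_le_rpow hR01 (by positivity)
  refine ⟨c, R0 ^ (c * R0), hc0, by linarith, ?_⟩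
  intro k _ _ h2 N hN f₀ hf hn₀ z hz R hR
  have hRr : (1 : ℝ) ≤ R := by exact_mod_cast hR
  have hq0 : (0 : ℝ) < (Fintype.card k : ℝ) ^ (2 * N) := by
    have : (0 : ℝ) < Fintype.card k := by exact_mod_cast Fintype.card_pos
    positivity
  have htriv : (#(many k N f₀ g κ z R) : ℝ) ≤ (Fintype.card k : ℝ) ^ (2 * N) := by
    have h1 : #(many k N f₀ g κ z R) ≤ Fintype.card (VV k N) := by
      rw [← card_univ]
      exact Finset.card_le_card (subset_univ _)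
    rw [card_VV] at h1
    exact_mod_cast h1
  by_cases hRR : (R : ℝ) < R0
  · have h1 : (R : ℝ) ^ (c * R) ≤ R0 ^ (c * R0) := by
      calc (R : ℝ) ^ (c * R) ≤ R0 ^ (c * R) :=
            Real.rpow_le_rpow (by linarith) hRR.le (by positivity)
        _ ≤ R0 ^ (c * R0) := Real.rpow_le_rpow_of_exponent_le hR01
            (mul_le_mul_of_nonneg_left hRR.le hc0.le)
    have h4 : 1 ≤ R0 ^ (c * R0) * (R : ℝ) ^ (-(c * R)) := by
      rw [Real.rpow_neg (by linarith), ← div_eq_mul_inv, one_le_div (by positivity)]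
      exact h1
    nlinarith
  push Not at hRR
  -- the main case
  have hRa : 8 * a ≤ R := by
    have : (0 : ℝ) ≤ 144 * (n₀ : ℝ) ^ 2 := by positivity
    linarith
  set y : ℝ := R / (8 * a) with hy
  have hy1 : 1 ≤ y := by
    rw [hy, one_le_div (by positivity)]
    exact hRa
  set m : ℕ := ⌊y⌋₊ with hm
  have hmy : (m : ℝ) ≤ y := Nat.floor_le (by linarith)
  have hm1 : 1 ≤ m := by
    rw [hm, Nat.le_floor_iff (by linarith)]
    exact_mod_cast hy1
  have hm1' : (1 : ℝ) ≤ m := by exact_mod_cast hm1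
  have hmy2 : y / 2 ≤ m := by
    have h1 : y < m + 1 := Nat.lt_floor_add_one y
    linarith
  set M : ℕ := N / (2 * m + 1) with hM
  have hMN : (2 * m + 1) * M ≤ N := Nat.mul_div_le N (2 * m + 1)
  have hMN2 : N < (2 * m + 1) * (M + 1) := by
    rw [hM, mul_add, mul_one]
    exact Nat.lt_mul_div_succ N (by omega)
  have hMN3 : (N : ℝ) ≤ (2 * m + 1) * (M + 1) := by exact_mod_cast hMN2.le
  have hNr : (1 : ℝ) ≤ N := by exact_mod_cast hN
  have hMle : (M : ℝ) ≤ N := by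
    have : M ≤ N := Nat.div_le_self _ _
    exact_mod_cast this
  have hMδ : (M : ℝ) * (1 / N) ≤ 1 := by
    rw [mul_one_div, div_le_one (by linarith)]
    exact hMle
  have hya : a * y = R / 8 := by
    rw [hy]
    field_simp
  have hs : ∀ v ∈ many k N f₀ g κ z R, (R : ℝ) / 2 ≤ TT f₀ M z ((v.1 : k[X]), (v.2 : k[X])) := by
    intro v hv
    unfold many at hv
    rw [mem_filter] at hv
    obtain ⟨_, E, S, hS, hRS⟩ := hv
    have h4 := count_main E hf hn₀ h3 hodd (by positivity) hz hMδ S hS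
    have h5 : (R : ℝ) ≤ #S := by exact_mod_cast hRS
    have h6 : κ * N / ((M : ℝ) + 1) ≤ κ * (2 * m + 1) := by
      rw [div_le_iff₀ (by positivity), mul_assoc]
      exact mul_le_mul_of_nonneg_left hMN3 (by linarith)
    have h7 : (36 + 32 * (n₀ : ℝ)) * (κ * N / (M + 1)) ≤ a * (2 * m + 1) := by
      rw [ha, mul_assoc]
      exact mul_le_mul_of_nonneg_left h6 (by positivity)
    have h8 : (g : ℝ) ≤ n₀ := by exact_mod_cast hg
    have h9 : a * m ≤ R / 8 := by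
      rw [← hya]
      exact mul_le_mul_of_nonneg_left hmy ha0.le
    nlinarith
  have key := markov h2 hf hn₀ h3 hodd hz hm1 hMN (R := R) (by linarith) _ hs
  have h4 : 3072 * (n₀ : ℝ) ^ 2 * m / (R : ℝ) ^ 2 ≤ (R : ℝ) ^ (-(1 / 2 : ℝ)) := by
    have h5 : 12 * (n₀ : ℝ) ≤ √(R : ℝ) := by
      apply Real.le_sqrt_of_sq_le
      have h6 : (12 * (n₀ : ℝ)) ^ 2 = 144 * (n₀ : ℝ) ^ 2 := by ring
      rw [h6]
      linarith
    have h6 : (R : ℝ) ^ (-(1 / 2 : ℝ)) = (√(R : ℝ))⁻¹ := by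
      rw [Real.rpow_neg (by linarith), Real.sqrt_eq_rpow]
    rw [h6]
    have hs0 : 0 < √(R : ℝ) := Real.sqrt_pos.2 (by linarith)
    have hs2 : √(R : ℝ) ^ 2 = R := Real.sq_sqrt (by linarith)
    rw [div_le_iff₀ (by positivity)]
    have h7 : (√(R : ℝ))⁻¹ * (R : ℝ) ^ 2 = √(R : ℝ) * R := by
      have : (R : ℝ) ^ 2 = √(R : ℝ) * (√(R : ℝ) * R) := by
        rw [← mul_assoc, ← sq, hs2]
        ring
      rw [this, ← mul_assoc, inv_mul_cancel₀ hs0.ne', one_mul]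
    rw [h7]
    have h8 : 32 * (n₀ : ℝ) * m ≤ R / 8 := by
      have h9 : 32 * (n₀ : ℝ) * m ≤ a * m := mul_le_mul_of_nonneg_right (by linarith) (by linarith)
      have h10 : a * m ≤ R / 8 := by
        rw [← hya]
        exact mul_le_mul_of_nonneg_left hmy ha0.le
      linarith
    calc 3072 * (n₀ : ℝ) ^ 2 * m = (12 * n₀) * (8 * (32 * n₀ * m)) := by ring
      _ ≤ √(R : ℝ) * (8 * (R / 8)) :=
          mul_le_mul h5 (by linarith) (by positivity) hs0.le
      _ = _ := by ring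
  have h5 : (3072 * (n₀ : ℝ) ^ 2 * m / (R : ℝ) ^ 2) ^ m ≤ (R : ℝ) ^ (-(c * R)) := by
    calc (3072 * (n₀ : ℝ) ^ 2 * m / (R : ℝ) ^ 2) ^ m ≤ ((R : ℝ) ^ (-(1 / 2 : ℝ))) ^ m :=
          pow_le_pow_left₀ (by positivity) h4 m
      _ = (R : ℝ) ^ (-(1 / 2 : ℝ) * m) := by
          rw [← Real.rpow_natCast, ← Real.rpow_mul (by linarith)]
      _ ≤ (R : ℝ) ^ (-(c * R)) := by
          apply Real.rpow_le_rpow_of_exponent_le hRr
          have h6 : c * R = y / 4 := by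
            rw [hc, hy]
            field_simp
            ring
          rw [h6]
          linarith
  calc (#(many k N f₀ g κ z R) : ℝ) ≤
      (3072 * (n₀ : ℝ) ^ 2 * m / (R : ℝ) ^ 2) ^ m * (Fintype.card k : ℝ) ^ (2 * N) := key
    _ ≤ (R : ℝ) ^ (-(c * R)) * (Fintype.card k : ℝ) ^ (2 * N) :=
        mul_le_mul_of_nonneg_right h5 hq0.le
    _ ≤ R0 ^ (c * R0) * (R : ℝ) ^ (-(c * R)) * (Fintype.card k : ℝ) ^ (2 * N) := by
        refine mul_le_mul_of_nonneg_right ?_ hq0.le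
        have : (0 : ℝ) < (R : ℝ) ^ (-(c * R)) := by positivity
        nlinarith

/-- change of the constant coefficient -/
lemma trP_shift {k : Type} [Field k] [Fintype k] (f₀ : k[X][X]) (A B h P : k[X]) :
    trP (f₀ + C h) A B P = trP f₀ A (B + h) P := by
  have e : pset (f₀ + C h) A B P = pset f₀ A (B + h) P := by
    ext z
    unfold pset
    simp only [Set.mem_setOf_eq, Polynomial.map_add, Polynomial.map_C, eval_add, eval_C, map_add]
    constructor <;> intro h <;> rw [h] <;> ring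
  unfold trP
  rw [e]

/-- the data for the shifted polynomial -/
noncomputable def ED.shift {k : Type} [Field k] [Fintype k] {f₀ : k[X][X]} {A B h : k[X]} {g : ℕ} {K : ℝ}
    (E : ED f₀ A (B + h) g K) : ED (f₀ + C h) A B g K where
  D := E.D
  α := E.α
  D' := E.D'
  β := E.β
  bad := E.bad
  loc := E.loc
  hD := E.hD
  hD' := E.hD'
  hbad := E.hbad
  hα := E.hα
  hβ := E.hβ
  hloc := E.hloc
  htr := fun P h1 h2 h3 => by rw [trP_shift]; exact E.htr P h1 h2 h3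
  hform := E.hform

end Pool.Agent.N430.RT
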