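import Pool.Agent.N430.BP.FF3

set_option autoImplicit false
set_option linter.all false

/-! Sums of traces of Frobenius over rational function fields: Gaussian moments. -/

namespace Pool.Agent.N430.RT

open Finset Polynomial Pool.Agent.N430.BP Pool.Agent.N430.BP.FF Pool.Agent.R410.NG

section
variable {k : Type} [Field k] [Fintype k]

/-- **Gaussian moments.** -/
theorem moment_sub {X : k[X] → k[X] × k[X] → ℝ} {b : k[X] → ℝ} {x N : ℕ}
    {I : Finset k[X]} (hI : ∀ P ∈ I, P.Monic ∧ Irreducible P ∧ P.natDegree ≤ x ∧ Per P (X P))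
    (hb : ∀ P ∈ I, 0 ≤ b P ∧ (∀ v, |X P v| ≤ b P) ∧ mV N (X P) = 0) {m : ℕ} (hm : 1 ≤ m)
    (hN : (2 * m + 1) * x ≤ N) {V : ℝ} (hV0 : 0 < V) (hV : ∑ Q ∈ I, b Q ^ 2 ≤ V) :
    mV N (fun v => (∑ Q ∈ I, X Q v) ^ (2 * m)) ≤ (12 * m * V) ^ m := by
  have hm0 : (0 : ℝ) < m := by exact_mod_cast hm
  set z : ℝ := √(m / V) with hz
  have hzp : 0 < (m : ℝ) / V := by positivity
  have hz0 : 0 < z := Real.sqrt_pos.2 hzp
  have hz2 : z ^ 2 = m / V := Real.sq_sqrt hzp.le
  have h1 := moment_le hI hb hz0 (2 * m) hN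
  have h2 : Real.exp (z ^ 2 * ∑ Q ∈ I, b Q ^ 2) ≤ 3 ^ m := by
    have h3 : z ^ 2 * ∑ Q ∈ I, b Q ^ 2 ≤ m := by
      rw [hz2]
      refine (mul_le_mul_of_nonneg_left hV hzp.le).trans (le_of_eq ?_)
      field_simp
    have h4 : Real.exp 1 ≤ 3 := by
      have := Real.exp_one_lt_d9
      linarith
    calc Real.exp (z ^ 2 * ∑ Q ∈ I, b Q ^ 2) ≤ Real.exp m := Real.exp_le_exp.2 h3
      _ = Real.exp 1 ^ m := by rw [← Real.exp_nat_mul, mul_one]
      _ ≤ 3 ^ m := pow_le_pow_left₀ (Real.exp_pos _).le h4 m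
  have h5 : z⁻¹ ^ (2 * m) = (V / m) ^ m := by
    rw [pow_mul, inv_pow, hz2, inv_div]
  have h6 : ((2 * m).factorial : ℝ) ≤ (4 * (m : ℝ) ^ 2) ^ m := by
    have h7 : (2 * m).factorial ≤ (2 * m) ^ (2 * m) := Nat.factorial_le_pow _
    calc ((2 * m).factorial : ℝ) ≤ (((2 * m) ^ (2 * m) : ℕ) : ℝ) := by exact_mod_cast h7
      _ = (4 * (m : ℝ) ^ 2) ^ m := by
        push_cast
        rw [pow_mul]
        congr 1
        ring
  refine (le_abs_self _).trans (h1.trans ?_)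
  rw [h5]
  calc ((2 * m).factorial : ℝ) * ((V / m) ^ m * Real.exp (z ^ 2 * ∑ Q ∈ I, b Q ^ 2)) ≤
      (4 * (m : ℝ) ^ 2) ^ m * ((V / m) ^ m * 3 ^ m) := by
        refine mul_le_mul h6 (mul_le_mul_of_nonneg_left h2 (by positivity)) (by positivity) (by positivity)
    _ = (12 * m * V) ^ m := by
      rw [← mul_pow, ← mul_pow]
      congr 1
      field_simp
      ring

/-- the affine points of `y² = f₀(x) + A x + B` over the residue ring -/
def pset (f₀ : k[X][X]) (A B P : k[X]) : Set (Rs P × Rs P) :=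
  {z | z.2 ^ 2 = (f₀.map (Ideal.Quotient.mk (Ideal.span {P}))).eval z.1 +
    Ideal.Quotient.mk (Ideal.span {P}) A * z.1 + Ideal.Quotient.mk (Ideal.span {P}) B}

/-- the trace of Frobenius -/
noncomputable def trP (f₀ : k[X][X]) (A B P : k[X]) : ℝ :=
  (Fintype.card k : ℝ) ^ P.natDegree - (pset f₀ A B P).ncard

/-- the reduction of the polynomial -/
noncomputable def gg (f₀ : k[X][X]) (P : k[X]) (a b : Rs P) : (Rs P)[X] :=
  f₀.map (Ideal.Quotient.mk (Ideal.span {P})) + C a * X + C b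

lemma gg_eval (f₀ : k[X][X]) (P : k[X]) (a b x : Rs P) : (gg f₀ P a b).eval x =
    (f₀.map (Ideal.Quotient.mk (Ideal.span {P}))).eval x + a * x + b := by
  unfold gg
  simp

lemma trP_eq (f₀ : k[X][X]) {P : k[X]} (hm : P.Monic) (hP : Irreducible P) (A B : k[X]) :
    trP f₀ A B P = @trc (Rs P) (fldP hP) (gg f₀ P (Ideal.Quotient.mk _ A) (Ideal.Quotient.mk _ B)) := by
  have e : (pset f₀ A B P).ncard = Nat.card {z : Rs P × Rs P //
      z.2 ^ 2 = (gg f₀ P (Ideal.Quotient.mk _ A) (Ideal.Quotient.mk _ B)).eval z.1} := by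
    rw [← Nat.card_coe_set_eq]
    simp only [gg_eval]
    rfl
  unfold trP trc
  rw [e, card_Rs hm]
  push_cast
  rfl

/-- the degree of the reduction -/
lemma gg_deg {f₀ : k[X][X]} (hf : f₀.Monic) {n : ℕ} (hn : f₀.natDegree = n) (h3 : 3 ≤ n) {P : k[X]}
    (hP : Irreducible P) (a b : Rs P) : (gg f₀ P a b).Monic ∧ (gg f₀ P a b).natDegree = n := by
  let _ := fldP hP
  have hm : (f₀.map (Ideal.Quotient.mk (Ideal.span {P}))).Monic := hf.map _
  have hd : (f₀.map (Ideal.Quotient.mk (Ideal.span {P}))).natDegree = n := by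
    rw [hf.natDegree_map, hn]
  have hlt : (C a * X + C b : (Rs P)[X]).degree < (f₀.map (Ideal.Quotient.mk (Ideal.span {P}))).degree := by
    rw [degree_eq_natDegree hm.ne_zero, hd]
    refine lt_of_le_of_lt degree_linear_le ?_
    exact_mod_cast (by omega : 1 < n)
  unfold gg
  rw [add_assoc]
  exact ⟨hm.add_of_left hlt, (natDegree_add_eq_left_of_degree_lt hlt).trans hd⟩

lemma trP_bound {f₀ : k[X][X]} (hf : f₀.Monic) {n : ℕ} (hn : f₀.natDegree = n) (h3 : 3 ≤ n)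
    (hodd : Odd n) {P : k[X]} (hm : P.Monic) (hP : Irreducible P) (A B : k[X]) :
    |trP f₀ A B P| ≤ n * (rk k ^ P.natDegree)⁻¹ := by
  rw [trP_eq f₀ hm hP]
  obtain ⟨h1, h2⟩ := gg_deg hf hn h3 hP (Ideal.Quotient.mk (Ideal.span {P}) A)
    (Ideal.Quotient.mk (Ideal.span {P}) B)
  have h := @trc_bound (Rs P) (fldP hP) (fin_quot hm) _ h1 n h2 hodd
  rwa [← sqrt_Rs hm, inv_inv]

lemma trP_per (f₀ : k[X][X]) (P : k[X]) : Per P (fun v => trP f₀ v.1 v.2 P) := by
  intro v v' h1 h2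
  have e1 : Ideal.Quotient.mk (Ideal.span {P}) v.1 = Ideal.Quotient.mk (Ideal.span {P}) v'.1 := by
    rw [mk_eq_iff]
    exact h1
  have e2 : Ideal.Quotient.mk (Ideal.span {P}) v.2 = Ideal.Quotient.mk (Ideal.span {P}) v'.2 := by
    rw [mk_eq_iff]
    exact h2
  simp only [trP, pset, e1, e2]

lemma trP_mean (h2 : ringChar k ≠ 2) (f₀ : k[X][X]) {P : k[X]} (hm : P.Monic) (hP : Irreducible P)
    {N : ℕ} (hN : P.natDegree ≤ N) : mV N (fun v => trP f₀ v.1 v.2 P) = 0 := by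
  classical
  let _ := fldP hP
  let ft : Fintype (Rs P) := @Fintype.ofFinite _ (fin_quot hm)
  have hch : ringChar (Rs P) ≠ 2 := by
    have h3 : ringChar k = ringChar (Rs P) := Algebra.ringChar_eq k (Rs P)
    intro h
    exact h2 (h3.trans h)
  have h1 := mV_res hm hN (fun a b => trc (Rs P) (gg f₀ P a b)) 0 0
  simp only [zero_add] at h1
  have e : (fun v : k[X] × k[X] => trP f₀ v.1 v.2 P) = fun v =>
      trc (Rs P) (gg f₀ P (Ideal.Quotient.mk _ v.1) (Ideal.Quotient.mk _ v.2)) := by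
    funext v
    exact trP_eq f₀ hm hP v.1 v.2
  rw [e, h1]
  have h4 : ∑ a : Rs P, ∑ b : Rs P, trc (Rs P) (gg f₀ P a b) = 0 := by
    refine Finset.sum_eq_zero fun a _ => ?_
    have h5 : ∀ b : Rs P, trc (Rs P) (gg f₀ P a b) = -((∑ x : Rs P, quadraticChar (Rs P)
        ((f₀.map (Ideal.Quotient.mk (Ideal.span {P}))).eval x + a * x + b) : ℤ) : ℝ) := by
      intro b
      rw [trc_char hch]
      simp only [gg_eval]
    rw [Finset.sum_congr rfl fun b _ => h5 b, Finset.sum_neg_distrib, ← Int.cast_sum, Finset.sum_comm,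
      Finset.sum_eq_zero (fun x _ => sum_chi_shift hch _)]
    simp
  rw [h4, zero_div]

end

end Pool.Agent.N430.RT
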