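import Mathlib

set_option autoImplicit false
set_option linter.all false

/-! The Fejér kernel. -/

namespace Pool.Agent.N430.RT

open Finset

/-- the partial geometric sum -/
noncomputable def geo (M : ℕ) (u : ℂ) : ℂ := ∑ j ∈ range (M + 1), u ^ j

lemma conj_pow_mul {u : ℂ} (hu : ‖u‖ = 1) {j m : ℕ} (h : j ≤ m) :
    (starRingEnd ℂ) (u ^ j) * u ^ m = u ^ (m - j) := by
  have h1 : (starRingEnd ℂ) u * u = 1 := by
    rw [mul_comm, Complex.mul_conj, Complex.normSq_eq_norm_sq, hu]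
    norm_num
  have h2 : m = j + (m - j) := by omega
  conv_lhs => rw [h2, pow_add, ← mul_assoc, map_pow, ← mul_pow, h1, one_pow, one_mul]

lemma sum_conj {u : ℂ} (hu : ‖u‖ = 1) (M : ℕ) :
    (starRingEnd ℂ) (geo M u) * u ^ (M + 1) = ∑ n ∈ range (M + 1), u ^ (n + 1) := by
  unfold geo
  rw [map_sum, Finset.sum_mul, ← Finset.sum_range_reflect]
  refine Finset.sum_congr rfl fun j hj => ?_
  rw [mem_range] at hj
  rw [conj_pow_mul hu (by omega)]
  congr 1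
  omega

/-- **The Fejér kernel.** -/
theorem fejer {u : ℂ} (hu : ‖u‖ = 1) (M : ℕ) :
    ‖geo M u‖ ^ 2 = (M + 1) + 2 * ∑ n ∈ range M, ((M : ℝ) - n) * (u ^ (n + 1)).re := by
  induction M with
  | zero =>
    unfold geo
    simp
  | succ M ih =>
    have h1 : geo (M + 1) u = geo M u + u ^ (M + 1) := by
      unfold geo
      rw [Finset.sum_range_succ]
    have h2 : ‖geo (M + 1) u‖ ^ 2 = ‖geo M u‖ ^ 2 + 1 + 2 * ((starRingEnd ℂ) (geo M u) * u ^ (M + 1)).re := by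
      rw [h1, ← Complex.normSq_eq_norm_sq, Complex.normSq_add, Complex.normSq_eq_norm_sq,
        Complex.normSq_eq_norm_sq, norm_pow, hu]
      have h3 : (geo M u * (starRingEnd ℂ) (u ^ (M + 1))).re =
          ((starRingEnd ℂ) (geo M u) * u ^ (M + 1)).re := by
        rw [← Complex.conj_re (geo M u * (starRingEnd ℂ) (u ^ (M + 1))), map_mul, Complex.conj_conj]
      rw [h3]
      ring
    rw [h2, ih, sum_conj hu, Complex.re_sum]
    rw [Finset.sum_range_succ _ M]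
    push_cast
    have h4 : ∑ n ∈ range (M + 1), ((M : ℝ) + 1 - n) * (u ^ (n + 1)).re =
        ∑ n ∈ range M, ((M : ℝ) - n) * (u ^ (n + 1)).re + ∑ n ∈ range M, (u ^ (n + 1)).re +
          (u ^ (M + 1)).re := by
      rw [Finset.sum_range_succ, ← Finset.sum_add_distrib]
      congr 1
      · refine Finset.sum_congr rfl fun n _ => ?_
        ring
      · ring
    rw [h4]
    ring

lemma pow_sub_one_le {u : ℂ} (hu : ‖u‖ = 1) {δ : ℝ} (h : ‖u - 1‖ ≤ δ) (j : ℕ) :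
    ‖u ^ j - 1‖ ≤ j * δ := by
  induction j with
  | zero => simp
  | succ j ih =>
    have e : u ^ (j + 1) - 1 = u ^ j * (u - 1) + (u ^ j - 1) := by ring
    rw [e]
    refine (norm_add_le _ _).trans ?_
    rw [norm_mul, norm_pow, hu, one_pow, one_mul]
    push_cast
    linarith

/-- **Lower bound near the point 1.** -/
theorem geo_ge {u : ℂ} (hu : ‖u‖ = 1) {M : ℕ} {δ : ℝ} (h : ‖u - 1‖ ≤ δ) (hM : M * δ ≤ 1) :
    ((M : ℝ) + 1) ^ 2 / 4 ≤ ‖geo M u‖ ^ 2 := by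
  have hδ : 0 ≤ δ := (norm_nonneg _).trans h
  have h1 : ‖geo M u - ((M : ℂ) + 1)‖ ≤ ((M : ℝ) + 1) / 2 := by
    have e : geo M u - ((M : ℂ) + 1) = ∑ j ∈ range (M + 1), (u ^ j - 1) := by
      unfold geo
      rw [Finset.sum_sub_distrib, Finset.sum_const, card_range]
      simp
    rw [e]
    refine (norm_sum_le _ _).trans ((Finset.sum_le_sum fun j _ => pow_sub_one_le hu h j).trans ?_)
    rw [← Finset.sum_mul]
    have h2 : (∑ j ∈ range (M + 1), (j : ℝ)) = ((M : ℝ) + 1) * M / 2 := by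
      have h3 := Finset.sum_range_id_mul_two (M + 1)
      have h4 : ((∑ j ∈ range (M + 1), j : ℕ) : ℝ) * 2 = ((M + 1 : ℕ) : ℝ) * ((M + 1 - 1 : ℕ) : ℝ) := by
        exact_mod_cast h3
      push_cast at h4

      linarith
    rw [h2]
    have : 0 ≤ (M : ℝ) := Nat.cast_nonneg _
    nlinarith
  have h2 : ((M : ℝ) + 1) / 2 ≤ ‖geo M u‖ := by
    have h3 : ‖((M : ℂ) + 1)‖ = (M : ℝ) + 1 := by
      have : ((M : ℂ) + 1) = (((M : ℝ) + 1 : ℝ) : ℂ) := by push_cast; rfl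
      rw [this, Complex.norm_real, Real.norm_eq_abs, abs_of_nonneg (by positivity)]
    have h4 : ‖((M : ℂ) + 1)‖ ≤ ‖geo M u‖ + ‖geo M u - ((M : ℂ) + 1)‖ := by
      have h5 : ((M : ℂ) + 1) = geo M u - (geo M u - ((M : ℂ) + 1)) := by ring
      calc ‖((M : ℂ) + 1)‖ = ‖geo M u - (geo M u - ((M : ℂ) + 1))‖ := by rw [← h5]
        _ ≤ _ := norm_sub_le _ _
    linarith
  have h3 : (0 : ℝ) ≤ ((M : ℝ) + 1) / 2 := by positivity
  nlinarith

/-- **Counting.** -/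
theorem count_le {D : ℕ} (u : Fin D → ℂ) (hu : ∀ i, ‖u i‖ = 1) {M : ℕ} {δ : ℝ} (hM : M * δ ≤ 1)
    (S : Finset (Fin D)) (hS : ∀ i ∈ S, ‖u i - 1‖ ≤ δ) :
    (#S : ℝ) * (((M : ℝ) + 1) ^ 2 / 4) ≤ D * (M + 1) +
      2 * ∑ n ∈ range M, ((M : ℝ) - n) * (∑ i, u i ^ (n + 1)).re := by
  have h1 : (#S : ℝ) * (((M : ℝ) + 1) ^ 2 / 4) ≤ ∑ i, ‖geo M (u i)‖ ^ 2 := by
    calc (#S : ℝ) * (((M : ℝ) + 1) ^ 2 / 4) = ∑ i ∈ S, (((M : ℝ) + 1) ^ 2 / 4) := by
          rw [Finset.sum_const, nsmul_eq_mul]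
      _ ≤ ∑ i ∈ S, ‖geo M (u i)‖ ^ 2 := Finset.sum_le_sum fun i hi => geo_ge (hu i) (hS i hi) hM
      _ ≤ _ := Finset.sum_le_sum_of_subset_of_nonneg (subset_univ _) fun i _ _ => by positivity
  refine h1.trans (le_of_eq ?_)
  simp only [fejer (hu _), Complex.re_sum, Finset.mul_sum]
  rw [Finset.sum_add_distrib, Finset.sum_const, card_univ, Fintype.card_fin, nsmul_eq_mul,
    Finset.sum_comm]

end Pool.Agent.N430.RT
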