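import Pool.Agent.N430.RT.A1
import Pool.Agent.N430.RT.A2

set_option autoImplicit false
set_option linter.all false

/-! The explicit formula over rational function fields. -/

namespace Pool.Agent.N430.RT

open Finset Polynomial Pool.Agent.N430.BP Pool.Agent.N430.BP.FF Pool.Agent.R410.NG

open Classical in
/-- the data of the trace formula for the curve `y² = f₀(x) + A x + B` over `k(t)` -/
structure ED {k : Type} [Field k] [Fintype k] (f₀ : k[X][X]) (A B : k[X]) (g : ℕ) (K : ℝ) where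
  D : ℕ
  α : Fin D → ℂ
  D' : ℕ
  β : Fin D' → ℂ
  bad : Finset k[X]
  loc : k[X] → Fin g → ℂ
  hD : (D : ℝ) ≤ K
  hD' : (D' : ℝ) ≤ K
  hbad : ∑ P ∈ bad, (P.natDegree : ℝ) ≤ K
  hα : ∀ i, ‖α i‖ = Fintype.card k
  hβ : ∀ j, ‖β j‖ ≤ √(Fintype.card k)
  hloc : ∀ P, P.Monic → Irreducible P → P ∉ bad → ∀ i, ‖loc P i‖ ≤ √(Fintype.card k) ^ P.natDegree
  htr : ∀ P, P.Monic → Irreducible P → P ∉ bad → ∑ i, loc P i = (trP f₀ A B P : ℂ)
  hform : ∀ n, 1 ≤ n → ∑ i, α i ^ n + ∑ j, β j ^ n =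
    -∑ e ∈ n.divisors, ∑ P ∈ (IR k e).filter (· ∉ bad), (e : ℂ) * ∑ i, loc P i ^ (n / e)

section
variable {k : Type} [Field k] [Fintype k]

lemma prop_sum {n : ℕ} (hn : n ≠ 0) :
    ∑ e ∈ n.properDivisors, (e : ℝ) * (#(IR k e) : ℝ) ≤ 2 * (Fintype.card k : ℝ) ^ (n / 2) := by
  have hq : (2 : ℝ) ≤ Fintype.card k := by
    have : 1 < Fintype.card k := Fintype.one_lt_card
    exact_mod_cast this
  set q : ℝ := ((Fintype.card k : ℕ) : ℝ) with hqd
  have h5 : ∀ m : ℕ, ∑ d ∈ range (m + 1), q ^ d ≤ 2 * q ^ m := by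
    intro m
    induction m with
    | zero => simp
    | succ m ih =>
      rw [Finset.sum_range_succ, pow_succ]
      have : 0 ≤ q ^ m := by positivity
      nlinarith
  have h4 : n.properDivisors ⊆ range (n / 2 + 1) := by
    intro d hd
    rw [Nat.mem_properDivisors] at hd
    rw [mem_range]
    obtain ⟨c, hc⟩ := hd.1
    have hc2 : 2 ≤ c := by
      by_contra hcon
      push Not at hcon
      have hcc : c = 0 ∨ c = 1 := by omega
      rcases hcc with rfl | rfl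
      · simp at hc
        exact hn hc
      · rw [mul_one] at hc
        omega
    have : 2 * d ≤ n := by
      rw [hc]
      nlinarith
    omega
  refine le_trans (le_trans (Finset.sum_le_sum fun d hd => ?_)
    (Finset.sum_le_sum_of_subset_of_nonneg h4 fun d _ _ => by positivity)) (h5 (n / 2))
  have hd0 : d ≠ 0 := by
    rintro rfl
    rw [Nat.mem_properDivisors] at hd
    exact hn (Nat.eq_zero_of_zero_dvd hd.1)
  unfold IR
  rw [if_neg hd0]
  exact Pool.Agent.N842.SQ.card_Irr_le k d hd0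

lemma rk_q_half (n : ℕ) : rk k ^ n * (Fintype.card k : ℝ) ^ (n / 2) ≤ 1 := by
  obtain ⟨r0, r1⟩ := rk_bounds k
  have h5 : (Fintype.card k : ℝ) ^ (n / 2) = (rk k ^ (2 * (n / 2)))⁻¹ := by
    rw [pow_mul, rk_sq, inv_pow, inv_inv]
  rw [h5]
  have h6 : rk k ^ n = rk k ^ (n - 2 * (n / 2)) * rk k ^ (2 * (n / 2)) := by
    rw [← pow_add]
    congr 1
    omega
  rw [h6, mul_assoc, mul_inv_cancel₀ (by positivity), mul_one]
  exact pow_le_one₀ r0.le (by linarith)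

lemma sqrt_rk (n : ℕ) : √(Fintype.card k : ℝ) ^ n = (rk k ^ n)⁻¹ := by
  unfold rk
  rw [inv_pow, inv_inv]

lemma card_rk (n : ℕ) : (Fintype.card k : ℝ) ^ n = (rk k ^ (2 * n))⁻¹ := by
  rw [pow_mul, rk_sq, inv_pow, inv_inv]

/-- **The error term.** -/
lemma err_bound {f₀ : k[X][X]} {A B : k[X]} {g : ℕ} {K : ℝ} (E : ED f₀ A B g K) (hf : f₀.Monic)
    {n₀ : ℕ} (hn₀ : f₀.natDegree = n₀) (h3 : 3 ≤ n₀) (hodd : Odd n₀) {z : ℂ} (hz : ‖z‖ = 1)
    {n : ℕ} (hn : 1 ≤ n) :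
    (∑ i, (E.α i / ((Fintype.card k : ℂ) * z)) ^ n).re ≤
      -(z⁻¹ ^ n).re * (n * rk k ^ (2 * n) * ∑ P ∈ IR k n, trP f₀ A B P) +
        ((K + n₀ * K) * rk k ^ n + 2 * g) := by
  classical
  obtain ⟨r0, r1⟩ := rk_bounds k
  set q : ℝ := ((Fintype.card k : ℕ) : ℝ) with hqd
  have hq0 : 0 < q := by rw [hqd]; exact_mod_cast Fintype.card_pos
  have hqC : ((Fintype.card k : ℕ) : ℂ) = ((q : ℝ) : ℂ) := by rw [hqd]; push_cast; rfl
  set r := rk k ^ n with hr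
  have hr0 : 0 < r := by rw [hr]; positivity
  have hr2 : rk k ^ (2 * n) = r ^ 2 := by rw [hr, ← pow_mul, mul_comm]
  have hqn : q ^ n = (r ^ 2)⁻¹ := by rw [← hr2]; exact card_rk n
  have hzn : ‖z⁻¹ ^ n‖ = 1 := by rw [norm_pow, norm_inv, hz]; simp
  -- the sum of the powers
  set G : ℕ → Finset k[X] := fun e => (IR k e).filter (· ∉ E.bad) with hG
  have e1 : ∑ i, (E.α i / ((Fintype.card k : ℂ) * z)) ^ n =
      z⁻¹ ^ n * ((r ^ 2 : ℝ) : ℂ) * ∑ i, E.α i ^ n := by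
    rw [Finset.mul_sum]
    refine Finset.sum_congr rfl fun i _ => ?_
    rw [hqC, div_pow, mul_pow, ← Complex.ofReal_pow, hqn]
    push_cast
    rw [inv_pow]
    field_simp
  have e2 : ∑ i, E.α i ^ n = -((n : ℂ) * ((∑ P ∈ IR k n, trP f₀ A B P : ℝ) : ℂ)) +
      ((n : ℂ) * ((∑ P ∈ (IR k n).filter (· ∈ E.bad), trP f₀ A B P : ℝ) : ℂ)) -
      ∑ e ∈ n.properDivisors, ∑ P ∈ G e, (e : ℂ) * ∑ i, E.loc P i ^ (n / e) - ∑ j, E.β j ^ n := by
    have h1 := E.hform n hn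
    rw [← Nat.cons_self_properDivisors (by omega : n ≠ 0), Finset.sum_cons] at h1
    have h2 : ∑ P ∈ G n, (n : ℂ) * ∑ i, E.loc P i ^ (n / n) =
        (n : ℂ) * ((∑ P ∈ G n, trP f₀ A B P : ℝ) : ℂ) := by
      rw [← Finset.mul_sum]
      congr 1
      rw [Complex.ofReal_sum]
      refine Finset.sum_congr rfl fun P hP => ?_
      rw [hG] at hP
      simp only [mem_filter] at hP
      obtain ⟨g1, g2, g3⟩ := mem_IR.1 hP.1
      rw [Nat.div_self (by omega), ← E.htr P g1 g2 hP.2]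
      simp only [pow_one]
    have h3 : ∑ P ∈ IR k n, trP f₀ A B P = ∑ P ∈ (IR k n).filter (· ∈ E.bad), trP f₀ A B P +
        ∑ P ∈ G n, trP f₀ A B P := (Finset.sum_filter_add_sum_filter_not _ _ _).symm
    have h4 : ∑ P ∈ (IR k n).filter (· ∉ E.bad), (n : ℂ) * ∑ i, E.loc P i ^ (n / n) =
        (n : ℂ) * ((∑ P ∈ G n, trP f₀ A B P : ℝ) : ℂ) := h2
    rw [h4] at h1
    rw [h3]
    push_cast at h1 ⊢
    linear_combination h1
  -- the three error terms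
  have b1 : ‖∑ j, E.β j ^ n‖ ≤ K * r⁻¹ := by
    refine (norm_sum_le _ _).trans ((Finset.sum_le_sum (g := fun _ => r⁻¹) fun j _ => ?_).trans ?_)
    · rw [norm_pow]
      refine (pow_le_pow_left₀ (norm_nonneg _) (E.hβ j) n).trans (le_of_eq ?_)
      exact sqrt_rk n
    · rw [Finset.sum_const, card_univ, Fintype.card_fin, nsmul_eq_mul]
      exact mul_le_mul_of_nonneg_right E.hD' (by positivity)
  have b2 : ‖(n : ℂ) * ((∑ P ∈ (IR k n).filter (· ∈ E.bad), trP f₀ A B P : ℝ) : ℂ)‖ ≤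
      n₀ * K * r⁻¹ := by
    rw [norm_mul, Complex.norm_real, Complex.norm_natCast, Real.norm_eq_abs]
    have h1 : |∑ P ∈ (IR k n).filter (· ∈ E.bad), trP f₀ A B P| ≤
        ∑ P ∈ (IR k n).filter (· ∈ E.bad), (n₀ : ℝ) * r⁻¹ := by
      refine (Finset.abs_sum_le_sum_abs _ _).trans (Finset.sum_le_sum fun P hP => ?_)
      rw [mem_filter] at hP
      obtain ⟨g1, g2, g3⟩ := mem_IR.1 hP.1
      have := trP_bound hf hn₀ h3 hodd g1 g2 A B
      rwa [g3] at this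
    have h2 : ∑ P ∈ (IR k n).filter (· ∈ E.bad), (n : ℝ) ≤ K := by
      refine le_trans ?_ E.hbad
      have h5 : ∑ P ∈ (IR k n).filter (· ∈ E.bad), (n : ℝ) =
          ∑ P ∈ (IR k n).filter (· ∈ E.bad), (P.natDegree : ℝ) := by
        refine Finset.sum_congr rfl fun P hP => ?_
        rw [(mem_IR.1 (mem_filter.1 hP).1).2.2]
      rw [h5]
      refine Finset.sum_le_sum_of_subset_of_nonneg (fun P hP => (mem_filter.1 hP).2) fun _ _ _ =>
        Nat.cast_nonneg _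
    rw [Finset.sum_const, nsmul_eq_mul] at h1 h2
    calc (n : ℝ) * |∑ P ∈ (IR k n).filter (· ∈ E.bad), trP f₀ A B P| ≤
        n * ((#((IR k n).filter (· ∈ E.bad)) : ℝ) * (n₀ * r⁻¹)) :=
          mul_le_mul_of_nonneg_left h1 (Nat.cast_nonneg _)
      _ = ((#((IR k n).filter (· ∈ E.bad)) : ℝ) * n) * (n₀ * r⁻¹) := by ring
      _ ≤ K * (n₀ * r⁻¹) := mul_le_mul_of_nonneg_right h2 (by positivity)
      _ = _ := by ring
  have b3 : ‖∑ e ∈ n.properDivisors, ∑ P ∈ G e, (e : ℂ) * ∑ i, E.loc P i ^ (n / e)‖ ≤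
      2 * q ^ (n / 2) * (g * r⁻¹) := by
    refine (norm_sum_le _ _).trans ?_
    have h1 : ∀ e ∈ n.properDivisors, ‖∑ P ∈ G e, (e : ℂ) * ∑ i, E.loc P i ^ (n / e)‖ ≤
        ((e : ℝ) * (#(IR k e) : ℝ)) * (g * r⁻¹) := by
      intro e he
      rw [Nat.mem_properDivisors] at he
      refine (norm_sum_le _ _).trans ?_
      have h2 : ∀ P ∈ G e, ‖(e : ℂ) * ∑ i, E.loc P i ^ (n / e)‖ ≤ e * (g * r⁻¹) := by
        intro P hP
        rw [hG] at hP
        simp only [mem_filter] at hP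
        obtain ⟨g1, g2, g3⟩ := mem_IR.1 hP.1
        rw [norm_mul, Complex.norm_natCast]
        refine mul_le_mul_of_nonneg_left ?_ (Nat.cast_nonneg _)
        refine (norm_sum_le _ _).trans ((Finset.sum_le_sum (g := fun _ => r⁻¹) fun i _ => ?_).trans ?_)
        · rw [norm_pow]
          refine (pow_le_pow_left₀ (norm_nonneg _) (E.hloc P g1 g2 hP.2 i) _).trans (le_of_eq ?_)
          rw [g3, ← pow_mul, Nat.mul_div_cancel' he.1, sqrt_rk]
        · rw [Finset.sum_const, card_univ, Fintype.card_fin, nsmul_eq_mul]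
      refine (Finset.sum_le_sum h2).trans ?_
      rw [Finset.sum_const, nsmul_eq_mul]
      have h4 : (#(G e) : ℝ) ≤ #(IR k e) := by exact_mod_cast Finset.card_filter_le _ _
      calc (#(G e) : ℝ) * (e * (g * r⁻¹)) ≤ (#(IR k e) : ℝ) * (e * (g * r⁻¹)) :=
            mul_le_mul_of_nonneg_right h4 (by positivity)
        _ = _ := by ring
    refine (Finset.sum_le_sum h1).trans ?_
    rw [← Finset.sum_mul]
    exact mul_le_mul_of_nonneg_right (prop_sum (by omega)) (by positivity)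
  -- conclusion
  rw [e1, e2]
  set T := ∑ P ∈ IR k n, trP f₀ A B P with hT
  set W2 := ((n : ℂ) * ((∑ P ∈ (IR k n).filter (· ∈ E.bad), trP f₀ A B P : ℝ) : ℂ)) with hW2
  set W3 := ∑ e ∈ n.properDivisors, ∑ P ∈ G e, (e : ℂ) * ∑ i, E.loc P i ^ (n / e) with hW3
  set W1 := ∑ j, E.β j ^ n with hW1
  have e3 : z⁻¹ ^ n * ((r ^ 2 : ℝ) : ℂ) * (-((n : ℂ) * (T : ℂ)) + W2 - W3 - W1) =
      z⁻¹ ^ n * ((-(n * r ^ 2 * T) : ℝ) : ℂ) + z⁻¹ ^ n * ((r ^ 2 : ℝ) : ℂ) * (W2 - W3 - W1) := by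
    push_cast
    ring
  rw [e3, Complex.add_re]
  have h1 : (z⁻¹ ^ n * ((-(n * r ^ 2 * T) : ℝ) : ℂ)).re = -(z⁻¹ ^ n).re * (n * rk k ^ (2 * n) * T) := by
    rw [hr2, Complex.re_mul_ofReal]
    ring
  have h2 : (z⁻¹ ^ n * ((r ^ 2 : ℝ) : ℂ) * (W2 - W3 - W1)).re ≤ (K + n₀ * K) * r + 2 * g := by
    refine (Complex.re_le_norm _).trans ?_
    rw [norm_mul, norm_mul, hzn, one_mul, Complex.norm_real, Real.norm_eq_abs, abs_of_nonneg (by positivity)]
    have h5 : ‖W2 - W3 - W1‖ ≤ n₀ * K * r⁻¹ + 2 * q ^ (n / 2) * (g * r⁻¹) + K * r⁻¹ := by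
      refine (norm_sub_le _ _).trans (add_le_add ((norm_sub_le _ _).trans (add_le_add b2 b3)) b1)
    have h6 : r * q ^ (n / 2) ≤ 1 := rk_q_half n
    calc r ^ 2 * ‖W2 - W3 - W1‖ ≤ r ^ 2 * (n₀ * K * r⁻¹ + 2 * q ^ (n / 2) * (g * r⁻¹) + K * r⁻¹) :=
          mul_le_mul_of_nonneg_left h5 (by positivity)
      _ = (K + n₀ * K) * r + 2 * g * (r * q ^ (n / 2)) := by
        field_simp
        ring
      _ ≤ (K + n₀ * K) * r + 2 * g * 1 := by
        have : 2 * (g : ℝ) * (r * q ^ (n / 2)) ≤ 2 * g * 1 :=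
          mul_le_mul_of_nonneg_left h6 (by positivity)
        linarith
      _ = _ := by ring
  rw [h1]
  linarith

end

end Pool.Agent.N430.RT
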