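import Pool.Agent.N430.RT.A3

set_option autoImplicit false
set_option linter.all false

/-! The tail of the number of zeros near a point. -/

namespace Pool.Agent.N430.RT

open Finset Polynomial Pool.Agent.N430.BP Pool.Agent.N430.BP.FF Pool.Agent.R410.NG

/-- the coefficients -/
noncomputable def cM (M : ℕ) (z : ℂ) (n : ℕ) : ℝ :=
  8 / ((M : ℝ) + 1) ^ 2 * ((M : ℝ) + 1 - n) * (-(z⁻¹ ^ n).re)

lemma cM_bound {M : ℕ} {z : ℂ} (hz : ‖z‖ = 1) {n : ℕ} (hn : n ≤ M) : |cM M z n| ≤ 8 / ((M : ℝ) + 1) := by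
  unfold cM
  have h1 : |(z⁻¹ ^ n).re| ≤ 1 := by
    refine (Complex.abs_re_le_norm _).trans ?_
    rw [norm_pow, norm_inv, hz]
    simp
  have h2 : (n : ℝ) ≤ M := by exact_mod_cast hn
  have h3 : 0 ≤ (M : ℝ) + 1 - n := by linarith
  have h0 : (0 : ℝ) ≤ n := Nat.cast_nonneg _
  rw [abs_mul, abs_mul, abs_neg, abs_of_nonneg (by positivity : (0 : ℝ) ≤ 8 / ((M : ℝ) + 1) ^ 2),
    abs_of_nonneg h3]
  have hM : (0 : ℝ) < (M : ℝ) + 1 := by positivity
  calc 8 / ((M : ℝ) + 1) ^ 2 * ((M : ℝ) + 1 - n) * |(z⁻¹ ^ n).re| ≤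
      8 / ((M : ℝ) + 1) ^ 2 * ((M : ℝ) + 1) * 1 := by
        refine mul_le_mul (mul_le_mul_of_nonneg_left (by linarith) (by positivity)) h1 (abs_nonneg _)
          (by positivity)
    _ = _ := by
      field_simp

section
variable {k : Type} [Field k] [Fintype k]

/-- the random sum -/
noncomputable def TT (f₀ : k[X][X]) (M : ℕ) (z : ℂ) (v : k[X] × k[X]) : ℝ :=
  ∑ n ∈ range M, cM M z (n + 1) * (((n + 1 : ℕ) : ℝ) * rk k ^ (2 * (n + 1)) *
    ∑ P ∈ IR k (n + 1), trP f₀ v.1 v.2 P)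

/-- **The number of zeros near a point.** -/
theorem count_main {f₀ : k[X][X]} {A B : k[X]} {g : ℕ} {K : ℝ} (E : ED f₀ A B g K) (hf : f₀.Monic)
    {n₀ : ℕ} (hn₀ : f₀.natDegree = n₀) (h3 : 3 ≤ n₀) (hodd : Odd n₀) (hK : 0 ≤ K) {z : ℂ} (hz : ‖z‖ = 1)
    {M : ℕ} {δ : ℝ} (hM : M * δ ≤ 1) (S : Finset (Fin E.D))
    (hS : ∀ i ∈ S, ‖E.α i / (Fintype.card k : ℂ) - z‖ ≤ δ) :
    (#S : ℝ) ≤ (36 + 32 * n₀) * (K / (M + 1)) + 16 * g + TT f₀ M z (A, B) := by
  obtain ⟨r0, r1⟩ := rk_bounds k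
  have hq0 : (0 : ℝ) < Fintype.card k := by exact_mod_cast Fintype.card_pos
  have hqC : (Fintype.card k : ℂ) ≠ 0 := by exact_mod_cast Fintype.card_ne_zero
  have hz0 : z ≠ 0 := by
    rintro rfl
    simp at hz
  have hu : ∀ i, ‖E.α i / ((Fintype.card k : ℂ) * z)‖ = 1 := by
    intro i
    rw [norm_div, norm_mul, hz, mul_one, E.hα i, Complex.norm_natCast, div_self hq0.ne']
  have hu1 : ∀ i ∈ S, ‖E.α i / ((Fintype.card k : ℂ) * z) - 1‖ ≤ δ := by
    intro i hi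
    have e : E.α i / ((Fintype.card k : ℂ) * z) - 1 = (E.α i / (Fintype.card k : ℂ) - z) / z := by
      field_simp
    rw [e, norm_div, hz, div_one]
    exact hS i hi
  have h1 := count_le (fun i => E.α i / ((Fintype.card k : ℂ) * z)) hu hM S hu1
  have hMp : (0 : ℝ) < (M : ℝ) + 1 := by positivity
  have h2 : ∀ n ∈ range M, ((M : ℝ) - n) * (∑ i, (E.α i / ((Fintype.card k : ℂ) * z)) ^ (n + 1)).re ≤
      ((M : ℝ) + 1) ^ 2 / 8 * (cM M z (n + 1) * (((n + 1 : ℕ) : ℝ) * rk k ^ (2 * (n + 1)) *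
        ∑ P ∈ IR k (n + 1), trP f₀ A B P)) + ((M + 1) * (K + n₀ * K)) * rk k ^ n + (M + 1) * (2 * g) := by
    intro n hn
    rw [mem_range] at hn
    have hnM : (n : ℝ) + 1 ≤ M := by exact_mod_cast hn
    have hn0 : (0 : ℝ) ≤ n := Nat.cast_nonneg _
    have h3 := err_bound E hf hn₀ h3 hodd hz (n := n + 1) (by omega)
    have h4 := mul_le_mul_of_nonneg_left h3 (by linarith : 0 ≤ (M : ℝ) - n)
    refine h4.trans ?_
    have h5 : ((M : ℝ) + 1) ^ 2 / 8 * (cM M z (n + 1) * (((n + 1 : ℕ) : ℝ) * rk k ^ (2 * (n + 1)) *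
        ∑ P ∈ IR k (n + 1), trP f₀ A B P)) = ((M : ℝ) - n) * (-(z⁻¹ ^ (n + 1)).re *
          (((n + 1 : ℕ) : ℝ) * rk k ^ (2 * (n + 1)) * ∑ P ∈ IR k (n + 1), trP f₀ A B P)) := by
      unfold cM
      push_cast
      field_simp
      ring
    rw [h5]
    have h6 : rk k ^ (n + 1) ≤ rk k ^ n := pow_le_pow_of_le_one r0.le (by linarith) (by omega)
    have h7 : 0 ≤ rk k ^ n := by positivity
    have h7' : 0 ≤ rk k ^ (n + 1) := by positivity
    have h8 : 0 ≤ K + n₀ * K := by positivity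
    have h9 : ((M : ℝ) - n) * ((K + n₀ * K) * rk k ^ (n + 1)) ≤ ((M + 1) * (K + n₀ * K)) * rk k ^ n := by
      calc ((M : ℝ) - n) * ((K + n₀ * K) * rk k ^ (n + 1)) ≤
          (M + 1) * ((K + n₀ * K) * rk k ^ n) :=
            mul_le_mul (by linarith) (mul_le_mul_of_nonneg_left h6 h8) (by positivity) (by positivity)
        _ = _ := by ring
    have h10 : ((M : ℝ) - n) * (2 * g) ≤ (M + 1) * (2 * g) :=
      mul_le_mul_of_nonneg_right (by linarith) (by positivity)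
    linarith
  have h4 := Finset.sum_le_sum h2
  rw [Finset.sum_add_distrib, Finset.sum_add_distrib, ← Finset.mul_sum, ← Finset.mul_sum,
    Finset.sum_const, card_range, nsmul_eq_mul] at h4
  have h5 : ∑ n ∈ range M, cM M z (n + 1) * (((n + 1 : ℕ) : ℝ) * rk k ^ (2 * (n + 1)) *
    ∑ P ∈ IR k (n + 1), trP f₀ A B P) = TT f₀ M z (A, B) := rfl
  rw [h5] at h4
  have h6 := geom_le k M
  have h7 : ((M + 1) * (K + n₀ * K)) * ∑ n ∈ range M, rk k ^ n ≤ ((M + 1) * (K + n₀ * K)) * 4 :=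
    mul_le_mul_of_nonneg_left h6 (by positivity)
  have hg0 : (0 : ℝ) ≤ g := Nat.cast_nonneg _
  have h8 : (M : ℝ) * ((M + 1) * (2 * g)) ≤ (M + 1) * ((M + 1) * (2 * g)) :=
    mul_le_mul_of_nonneg_right (by linarith) (by positivity)
  have h9 : (E.D : ℝ) * (M + 1) ≤ K * (M + 1) := mul_le_mul_of_nonneg_right E.hD hMp.le
  have h10 : (#S : ℝ) * (((M : ℝ) + 1) ^ 2 / 4) ≤
      ((36 + 32 * n₀) * (K / (M + 1)) + 16 * g + TT f₀ M z (A, B)) * (((M : ℝ) + 1) ^ 2 / 4) := by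
    have e : ((36 + 32 * n₀) * (K / (M + 1)) + 16 * g + TT f₀ M z (A, B)) * (((M : ℝ) + 1) ^ 2 / 4) =
        (9 + 8 * n₀) * K * (M + 1) + 4 * g * (M + 1) ^ 2 +
          2 * (((M : ℝ) + 1) ^ 2 / 8 * TT f₀ M z (A, B)) := by
      field_simp
      ring
    rw [e]
    refine h1.trans ?_
    nlinarith
  exact le_of_mul_le_mul_right h10 (by positivity)

/-- **The moments of the random sum.** -/
theorem TT_moment (h2 : ringChar k ≠ 2) {f₀ : k[X][X]} (hf : f₀.Monic) {n₀ : ℕ}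
    (hn₀ : f₀.natDegree = n₀) (h3 : 3 ≤ n₀) (hodd : Odd n₀) {z : ℂ} (hz : ‖z‖ = 1) {M N m : ℕ}
    (hm : 1 ≤ m) (hN : (2 * m + 1) * M ≤ N) :
    ∑ v : VV k N, TT f₀ M z ((v.1 : k[X]), (v.2 : k[X])) ^ (2 * m) ≤
      (768 * n₀ ^ 2 * m) ^ m * (Fintype.card k : ℝ) ^ (2 * N) := by
  classical
  obtain ⟨r0, r1⟩ := rk_bounds k
  have hMp : (0 : ℝ) < (M : ℝ) + 1 := by positivity
  set I : Finset k[X] := (range M).biUnion fun n => IR k (n + 1) with hI
  have hmem : ∀ P ∈ I, P.Monic ∧ Irreducible P ∧ P.natDegree ≤ M := by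
    intro P hP
    rw [hI, Finset.mem_biUnion] at hP
    obtain ⟨n, hn, hP⟩ := hP
    obtain ⟨g1, g2, g3⟩ := mem_IR.1 hP
    rw [mem_range] at hn
    exact ⟨g1, g2, by omega⟩
  have hdis : ((range M : Finset ℕ) : Set ℕ).PairwiseDisjoint (fun n => IR k (n + 1)) := by
    intro n _ m _ hnm
    rw [Function.onFun, Finset.disjoint_left]
    intro P h1 h2
    have := (mem_IR.1 h1).2.2.symm.trans (mem_IR.1 h2).2.2
    exact hnm (by omega)
  set X : k[X] → k[X] × k[X] → ℝ := fun P v =>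
    cM M z P.natDegree * ((P.natDegree : ℝ) * rk k ^ (2 * P.natDegree) * trP f₀ v.1 v.2 P) with hX
  set b : k[X] → ℝ := fun P => 8 / ((M : ℝ) + 1) * n₀ * (P.natDegree * rk k ^ P.natDegree) with hb
  have hsum : ∀ v, ∑ P ∈ I, X P v = TT f₀ M z v := by
    intro v
    rw [hI, Finset.sum_biUnion hdis]
    unfold TT
    refine Finset.sum_congr rfl fun n _ => ?_
    rw [Finset.mul_sum, Finset.mul_sum]
    refine Finset.sum_congr rfl fun P hP => ?_
    rw [hX]
    simp only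
    rw [(mem_IR.1 hP).2.2]
  have hV : ∑ Q ∈ I, b Q ^ 2 ≤ 64 * (n₀ : ℝ) ^ 2 := by
    rw [hI, Finset.sum_biUnion hdis]
    have h5 : ∀ n ∈ range M, ∑ P ∈ IR k (n + 1), b P ^ 2 ≤ 64 * (n₀ : ℝ) ^ 2 / ((M : ℝ) + 1) := by
      intro n hn
      rw [mem_range] at hn
      have hnM : ((n + 1 : ℕ) : ℝ) ≤ M + 1 := by
        have : ((n + 1 : ℕ) : ℝ) ≤ M := by exact_mod_cast hn
        linarith
      have h6 : ∑ P ∈ IR k (n + 1), b P ^ 2 = (8 / ((M : ℝ) + 1) * n₀) ^ 2 * ((n + 1 : ℕ) : ℝ) ^ 2 *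
          ((#(IR k (n + 1)) : ℝ) * rk k ^ (2 * (n + 1))) := by
        rw [Finset.sum_congr rfl (g := fun _ => (8 / ((M : ℝ) + 1) * n₀ *
          (((n + 1 : ℕ) : ℝ) * rk k ^ (n + 1))) ^ 2) fun P hP => by
            rw [hb]
            simp only
            rw [(mem_IR.1 hP).2.2], Finset.sum_const, nsmul_eq_mul]
        ring
      rw [h6]
      have h7 := dens_le k (n := n + 1) (by omega)
      have h8 : (0 : ℝ) < ((n + 1 : ℕ) : ℝ) := by positivity
      calc (8 / ((M : ℝ) + 1) * n₀) ^ 2 * ((n + 1 : ℕ) : ℝ) ^ 2 *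
          ((#(IR k (n + 1)) : ℝ) * rk k ^ (2 * (n + 1))) ≤
          (8 / ((M : ℝ) + 1) * n₀) ^ 2 * ((n + 1 : ℕ) : ℝ) ^ 2 * (1 / ((n + 1 : ℕ) : ℝ)) :=
            mul_le_mul_of_nonneg_left h7 (by positivity)
        _ = 64 * (n₀ : ℝ) ^ 2 / ((M : ℝ) + 1) ^ 2 * ((n + 1 : ℕ) : ℝ) := by
            field_simp
            ring
        _ ≤ 64 * (n₀ : ℝ) ^ 2 / ((M : ℝ) + 1) ^ 2 * (M + 1) :=
            mul_le_mul_of_nonneg_left hnM (by positivity)
        _ = _ := by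
            field_simp
    refine (Finset.sum_le_sum h5).trans ?_
    rw [Finset.sum_const, card_range, nsmul_eq_mul]
    calc (M : ℝ) * (64 * (n₀ : ℝ) ^ 2 / ((M : ℝ) + 1)) ≤
        (M + 1) * (64 * (n₀ : ℝ) ^ 2 / ((M : ℝ) + 1)) :=
          mul_le_mul_of_nonneg_right (by linarith) (by positivity)
      _ = _ := by field_simp
  have hn0 : (0 : ℝ) < n₀ := by
    have : 0 < n₀ := by omega
    exact_mod_cast this
  have key := moment_sub (k := k) (X := X) (b := b) (x := M) (N := N) (I := I) (by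
      intro P hP
      obtain ⟨g1, g2, g3⟩ := hmem P hP
      refine ⟨g1, g2, g3, ?_⟩
      intro v v' h4 h5
      rw [hX]
      simp only
      rw [show trP f₀ v.1 v.2 P = trP f₀ v'.1 v'.2 P from trP_per f₀ P v v' h4 h5]) (by
      intro P hP
      obtain ⟨g1, g2, g3⟩ := hmem P hP
      refine ⟨by positivity, fun v => ?_, ?_⟩
      · have h4 := trP_bound hf hn₀ h3 hodd g1 g2 v.1 v.2
        have h5 := cM_bound hz g3
        rw [hX]
        simp only
        rw [abs_mul, abs_mul, abs_of_nonneg (by positivity : (0:ℝ) ≤ (P.natDegree : ℝ) * rk k ^ (2 * P.natDegree))]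
        calc |cM M z P.natDegree| * ((P.natDegree : ℝ) * rk k ^ (2 * P.natDegree) * |trP f₀ v.1 v.2 P|) ≤
            8 / ((M : ℝ) + 1) * ((P.natDegree : ℝ) * rk k ^ (2 * P.natDegree) *
              (n₀ * (rk k ^ P.natDegree)⁻¹)) := by
              refine mul_le_mul h5 (mul_le_mul_of_nonneg_left h4 (by positivity)) (by positivity)
                (by positivity)
          _ = b P := by
            rw [hb]
            simp only
            rw [two_mul P.natDegree, pow_add]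
            field_simp
      · have h4 := trP_mean h2 f₀ g1 g2 (N := N) (by nlinarith)
        unfold mV at h4 ⊢
        rw [hX]
        simp only
        have e : (fun v : VV k N => cM M z P.natDegree * ((P.natDegree : ℝ) * rk k ^ (2 * P.natDegree) *
            trP f₀ (v.1 : k[X]) (v.2 : k[X]) P)) = fun v : VV k N =>
            (cM M z P.natDegree * ((P.natDegree : ℝ) * rk k ^ (2 * P.natDegree))) *
              trP f₀ (v.1 : k[X]) (v.2 : k[X]) P := by
          funext v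
          ring
        rw [e, mn_mul_left, h4, mul_zero]) hm hN (V := 64 * (n₀ : ℝ) ^ 2) (by positivity) hV
  simp only [hsum] at key
  have hc : (0 : ℝ) < Fintype.card (VV k N) := by exact_mod_cast Fintype.card_pos
  unfold mV mn at key
  rw [div_le_iff₀ hc, card_VV] at key
  refine key.trans (le_of_eq ?_)
  push_cast
  congr 1
  congr 1
  ring

end

end Pool.Agent.N430.RT
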