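import Pool.Agent.N430.RT.A5

set_option autoImplicit false
set_option linter.all false

/-! The large generalized eigenspaces. -/

namespace Pool.Agent.N430.RT

open Finset Polynomial Pool.Agent.N430.BP Pool.Agent.N430.BP.FF Pool.Agent.R410.NG

lemma summ {a : ℝ} (ha : 0 < a) : Summable (fun r : ℕ => (r : ℝ) ^ (-(a * r))) := by
  have hg : Summable (fun r : ℕ => (1 / 2 : ℝ) ^ r) := summable_geometric_of_lt_one (by norm_num) (by norm_num)
  refine Summable.of_norm_bounded_eventually_nat hg ?_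
  filter_upwards [Filter.eventually_ge_atTop (max 1 ⌈(2 : ℝ) ^ (1 / a)⌉₊)] with r hr
  have h1 : (1 : ℝ) ≤ r := by exact_mod_cast (le_max_left _ _).trans hr
  have h2 : (2 : ℝ) ^ (1 / a) ≤ r := (Nat.le_ceil _).trans (by exact_mod_cast (le_max_right _ _).trans hr)
  have h0 : (0 : ℝ) < r := by linarith
  rw [Real.norm_eq_abs, abs_of_nonneg (by positivity)]
  have h3 : (r : ℝ) ^ (-(a * r)) = ((r : ℝ) ^ (-a)) ^ r := by
    rw [← Real.rpow_natCast, ← Real.rpow_mul h0.le]
    congr 1
    ring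
  rw [h3]
  refine pow_le_pow_left₀ (by positivity) ?_ r
  rw [Real.rpow_neg h0.le, one_div]
  apply inv_anti₀ (by norm_num)
  calc (2 : ℝ) = ((2 : ℝ) ^ (1 / a)) ^ a := by
        rw [← Real.rpow_mul (by norm_num), one_div, inv_mul_cancel₀ ha.ne', Real.rpow_one]
    _ ≤ (r : ℝ) ^ a := Real.rpow_le_rpow (by positivity) h2 ha.le

lemma anti {a x y : ℝ} (ha : 0 < a) (hx : 1 ≤ x) (hxy : x ≤ y) : y ^ (-(a * y)) ≤ x ^ (-(a * x)) := by
  have hy : 1 ≤ y := hx.trans hxy
  calc y ^ (-(a * y)) ≤ y ^ (-(a * x)) := by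
        apply Real.rpow_le_rpow_of_exponent_le hy
        nlinarith
    _ ≤ x ^ (-(a * x)) := Real.rpow_le_rpow_of_nonpos (by linarith) hxy (by nlinarith)

/-- every point of the circle is close to one of `7 N` points -/
lemma near_point {u : ℂ} (hu : ‖u‖ = 1) {N : ℕ} (hN : 1 ≤ N) :
    ∃ j ∈ range (7 * N), ‖u - Complex.exp (2 * Real.pi * Complex.I * (j / (7 * N : ℕ)))‖ ≤ 1 / N := by
  have hJ : (0 : ℝ) < ((7 * N : ℕ) : ℝ) := by
    have : 0 < 7 * N := by omega
    exact_mod_cast this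
  have hpi := Real.pi_pos
  -- an argument in [0, 2 π)
  obtain ⟨θ, hθ0, hθ1, hθ⟩ : ∃ θ : ℝ, 0 ≤ θ ∧ θ < 2 * Real.pi ∧ u = Complex.exp (θ * Complex.I) := by
    have h1 : u = Complex.exp (u.arg * Complex.I) := by
      have := Complex.norm_mul_exp_arg_mul_I u
      rw [hu, Complex.ofReal_one, one_mul] at this
      exact this.symm
    have h2 := Complex.neg_pi_lt_arg u
    have h3 := Complex.arg_le_pi u
    by_cases h : 0 ≤ u.arg
    · exact ⟨u.arg, h, by linarith, h1⟩
    · refine ⟨u.arg + 2 * Real.pi, by linarith, by linarith, ?_⟩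
      push_cast
      rw [add_mul, Complex.exp_add, Complex.exp_two_pi_mul_I, mul_one]
      exact h1
  set y : ℝ := θ * ((7 * N : ℕ) : ℝ) / (2 * Real.pi) with hy
  have hy0 : 0 ≤ y := by positivity
  refine ⟨⌊y⌋₊, ?_, ?_⟩
  · rw [mem_range]
    rw [Nat.floor_lt hy0, hy, div_lt_iff₀ (by positivity), mul_comm]
    exact mul_lt_mul_of_pos_left hθ1 hJ
  · have h1 := Nat.floor_le hy0
    have h2 := Nat.lt_floor_add_one y
    set φ : ℝ := 2 * Real.pi * ((⌊y⌋₊ : ℝ) / ((7 * N : ℕ) : ℝ)) with hφ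
    have h3 : Complex.exp (2 * Real.pi * Complex.I * ((⌊y⌋₊ : ℂ) / ((7 * N : ℕ) : ℂ))) =
        Complex.exp (φ * Complex.I) := by
      congr 1
      rw [hφ]
      push_cast
      ring
    rw [h3, hθ]
    have h4 : Complex.exp (θ * Complex.I) - Complex.exp (φ * Complex.I) =
        Complex.exp (φ * Complex.I) * (Complex.exp (((θ - φ : ℝ) : ℂ) * Complex.I) - 1) := by
      rw [mul_sub, mul_one, ← Complex.exp_add]
      congr 2
      push_cast
      ring
    rw [h4, norm_mul, Complex.norm_exp_ofReal_mul_I, one_mul, mul_comm _ Complex.I]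
    refine (Real.norm_exp_I_mul_ofReal_sub_one_le).trans ?_
    have h5 : θ = 2 * Real.pi * (y / ((7 * N : ℕ) : ℝ)) := by
      rw [hy]
      field_simp
    have h6 : θ - φ = 2 * Real.pi * ((y - ⌊y⌋₊) / ((7 * N : ℕ) : ℝ)) := by
      rw [hφ]
      conv_lhs => rw [h5]
      ring
    rw [Real.norm_eq_abs, h6, abs_of_nonneg (by
      have : 0 ≤ y - ⌊y⌋₊ := by linarith
      positivity)]
    have hN' : (0 : ℝ) < N := by exact_mod_cast hN
    have h7 : (y - ⌊y⌋₊) / ((7 * N : ℕ) : ℝ) ≤ 1 / (7 * N) := by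
      push_cast
      exact div_le_div_of_nonneg_right (by linarith) (by positivity)
    calc 2 * Real.pi * ((y - ⌊y⌋₊) / ((7 * N : ℕ) : ℝ)) ≤ 2 * 3.5 * (1 / (7 * N)) := by
          have h8 := Real.pi_lt_d2
          have h9 : (0 : ℝ) ≤ 1 / (7 * N) := by positivity
          refine mul_le_mul (by linarith) h7 (div_nonneg (by linarith) hJ.le) (by norm_num)
      _ = 1 / N := by
        field_simp
        norm_num



/-- the indices of the eigenvalues of multiplicity at least `R` -/
noncomputable def bigIdx {k : Type} [Field k] [Fintype k] {f₀ : k[X][X]} {A B : k[X]} {g : ℕ} {K : ℝ}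
    (E : ED f₀ A B g K) (R : ℕ) : Finset (Fin E.D) :=
  open Classical in univ.filter fun i => R ≤ #(univ.filter fun j => E.α j = E.α i)

/-- the indices of the eigenvalues near a point -/
noncomputable def nearIdx {k : Type} [Field k] [Fintype k] {f₀ : k[X][X]} {A B : k[X]} {g : ℕ} {K : ℝ}
    (E : ED f₀ A B g K) (N : ℕ) (z : ℂ) : Finset (Fin E.D) :=
  open Classical in univ.filter fun i => ‖E.α i / (Fintype.card k : ℂ) - z‖ ≤ 1 / N

/-- the points -/
noncomputable def pt (N j : ℕ) : ℂ := Complex.exp (2 * Real.pi * Complex.I * (j / (7 * N : ℕ)))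

lemma pt_norm (N j : ℕ) : ‖pt N j‖ = 1 := by
  unfold pt
  have : (2 * Real.pi * Complex.I * ((j : ℂ) / ((7 * N : ℕ) : ℂ))) =
      ((2 * Real.pi * ((j : ℝ) / ((7 * N : ℕ) : ℝ)) : ℝ) : ℂ) * Complex.I := by
    push_cast
    ring
  rw [this, Complex.norm_exp_ofReal_mul_I]

lemma big_le {k : Type} [Field k] [Fintype k] {f₀ : k[X][X]} {A B : k[X]} {g : ℕ} {K : ℝ}
    (E : ED f₀ A B g K) {N : ℕ} (hN : 1 ≤ N) (R : ℕ) {L : ℕ} (hL : E.D ≤ L) :
    #(bigIdx E R) ≤ ∑ j ∈ range (7 * N), ∑ r ∈ Icc 1 L,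
      if max r R ≤ #(nearIdx E N (pt N j)) then 1 else 0 := by
  classical
  have h1 : bigIdx E R ⊆ (range (7 * N)).biUnion fun j =>
      if R ≤ #(nearIdx E N (pt N j)) then nearIdx E N (pt N j) else ∅ := by
    intro i hi
    unfold bigIdx at hi
    rw [mem_filter] at hi
    have hu : ‖E.α i / (Fintype.card k : ℂ)‖ = 1 := by
      rw [norm_div, E.hα i, Complex.norm_natCast, div_self]
      exact_mod_cast Fintype.card_ne_zero
    obtain ⟨j, hj, hj2⟩ := near_point hu hN
    rw [mem_biUnion]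
    refine ⟨j, hj, ?_⟩
    have h2 : R ≤ #(nearIdx E N (pt N j)) := by
      refine hi.2.trans (card_le_card fun i' hi' => ?_)
      unfold nearIdx
      rw [mem_filter] at hi' ⊢
      refine ⟨mem_univ _, ?_⟩
      rw [hi'.2]
      exact hj2
    rw [if_pos h2]
    unfold nearIdx
    rw [mem_filter]
    exact ⟨mem_univ _, hj2⟩
  refine (card_le_card h1).trans (card_biUnion_le.trans (sum_le_sum fun j _ => ?_))
  split_ifs with h
  · rw [← sum_filter, sum_const, smul_eq_mul, mul_one]
    have h3 : Icc 1 #(nearIdx E N (pt N j)) ⊆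
        (Icc 1 L).filter fun r => max r R ≤ #(nearIdx E N (pt N j)) := by
      intro r hr
      rw [mem_Icc] at hr
      rw [mem_filter, mem_Icc]
      refine ⟨⟨hr.1, hr.2.trans ?_⟩, max_le hr.2 h⟩
      refine (card_le_univ _).trans ?_
      rw [Fintype.card_fin]
      exact hL
    have h4 := card_le_card h3
    rwa [Nat.card_Icc, Nat.add_sub_cancel] at h4
  · rw [card_empty]
    exact Nat.zero_le _

/-- **The large generalized eigenspaces.** -/
theorem mult_avg (n₀ g : ℕ) (h3 : 3 ≤ n₀) (hodd : Odd n₀) (hg : g ≤ n₀) {κ : ℝ} (hκ : 1 ≤ κ) :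
    ∃ c C : ℝ, 0 < c ∧ 0 < C ∧ ∀ (k : Type) [Field k] [Fintype k], ringChar k ≠ 2 →
      ∀ N : ℕ, 1 ≤ N → ∀ f₀ : k[X][X], f₀.Monic → f₀.natDegree = n₀ →
      ∀ R : ℕ, 1 ≤ R → ∀ (T : Type) [Fintype T] (w : T → VV k N) (_ : Function.Injective w)
        (E : ∀ v : T, ED f₀ ((w v).1 : k[X]) ((w v).2 : k[X]) g (κ * N)),
        (∑ v : T, (#(bigIdx (E v) R) : ℝ)) ≤
          C * (R : ℝ) ^ (-(c * R)) * N * (Fintype.card k : ℝ) ^ (2 * N) := by
  classical
  obtain ⟨c, C, hc, hC, H⟩ := main_rt n₀ g h3 hodd hg hκ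
  have ha : 0 < c / 2 := by positivity
  set S : ℝ := ∑' r : ℕ, (r : ℝ) ^ (-(c / 2 * r)) with hS
  have hS0 : 0 < S := by
    have h1 := (summ ha).sum_le_tsum {1} (fun r _ => by positivity)
    rw [sum_singleton, Nat.cast_one, Real.one_rpow] at h1
    rw [hS]
    linarith
  refine ⟨c / 2, 7 * C * S, ha, by positivity, ?_⟩
  intro k _ _ h2 N hN f₀ hf hn₀ R hR T _ w hw E
  set L : ℕ := ⌊κ * N⌋₊ with hL
  have hLD : ∀ v : T, (E v).D ≤ L := fun v => Nat.le_floor (E v).hD
  have hRr : (1 : ℝ) ≤ R := by exact_mod_cast hR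
  have hq0 : (0 : ℝ) < (Fintype.card k : ℝ) ^ (2 * N) := by
    have : (0 : ℝ) < Fintype.card k := by exact_mod_cast Fintype.card_pos
    positivity
  calc (∑ v : T, (#(bigIdx (E v) R) : ℝ)) ≤
      ∑ v : T, ∑ j ∈ range (7 * N), ∑ r ∈ Icc 1 L,
        if max r R ≤ #(nearIdx (E v) N (pt N j)) then (1 : ℝ) else 0 := by
        refine sum_le_sum fun v _ => ?_
        have := big_le (E v) hN R (hLD v)
        exact_mod_cast this
    _ = ∑ j ∈ range (7 * N), ∑ r ∈ Icc 1 L, ∑ v : T,
        if max r R ≤ #(nearIdx (E v) N (pt N j)) then (1 : ℝ) else 0 := by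
        rw [sum_comm]
        refine sum_congr rfl fun j _ => sum_comm
    _ ≤ ∑ j ∈ range (7 * N), ∑ r ∈ Icc 1 L,
        C * (R : ℝ) ^ (-(c / 2 * R)) * (Fintype.card k : ℝ) ^ (2 * N) * (r : ℝ) ^ (-(c / 2 * r)) := by
        refine sum_le_sum fun j _ => sum_le_sum fun r hr => ?_
        rw [mem_Icc] at hr
        have hr1 : (1 : ℝ) ≤ r := by exact_mod_cast hr.1
        have h4 : (∑ v : T, if max r R ≤ #(nearIdx (E v) N (pt N j)) then (1 : ℝ) else 0) ≤
            #(many k N f₀ g κ (pt N j) (max r R)) := by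
          rw [← sum_filter, sum_const, nsmul_eq_mul, mul_one]
          have h5 : #((univ : Finset T).filter fun v => max r R ≤ #(nearIdx (E v) N (pt N j))) ≤
              #(many k N f₀ g κ (pt N j) (max r R)) := by
            refine card_le_card_of_injOn w ?_ ?_
            · intro v hv
              rw [mem_coe, mem_filter] at hv
              rw [mem_coe]
              unfold many
              rw [mem_filter]
              refine ⟨mem_univ _, E v, nearIdx (E v) N (pt N j), fun i hi => ?_, hv.2⟩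
              unfold nearIdx at hi
              exact (mem_filter.1 hi).2
            · intro v _ v' _ hvw
              exact hw hvw
          exact_mod_cast h5
        have h5 := H k h2 N hN f₀ hf hn₀ (pt N j) (pt_norm N j) (max r R) (hR.trans (le_max_right _ _))
        refine h4.trans (h5.trans ?_)
        have h6 : ((max r R : ℕ) : ℝ) ^ (-(c * (max r R : ℕ))) ≤
            (R : ℝ) ^ (-(c / 2 * R)) * (r : ℝ) ^ (-(c / 2 * r)) := by
          set x : ℝ := ((max r R : ℕ) : ℝ) with hx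
          have hx1 : (R : ℝ) ≤ x := Nat.cast_le.2 (le_max_right _ _)
          have hx2 : (r : ℝ) ≤ x := Nat.cast_le.2 (le_max_left _ _)
          have hx0 : 0 < x := by linarith
          have e : x ^ (-(c * x)) = x ^ (-(c / 2 * x)) * x ^ (-(c / 2 * x)) := by
            rw [← Real.rpow_add hx0]
            congr 1
            ring
          rw [e]
          exact mul_le_mul (anti ha hRr hx1) (anti ha hr1 hx2) (by positivity) (by positivity)
        calc C * ((max r R : ℕ) : ℝ) ^ (-(c * (max r R : ℕ))) * (Fintype.card k : ℝ) ^ (2 * N) ≤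
            C * ((R : ℝ) ^ (-(c / 2 * R)) * (r : ℝ) ^ (-(c / 2 * r))) *
              (Fintype.card k : ℝ) ^ (2 * N) :=
              mul_le_mul_of_nonneg_right (mul_le_mul_of_nonneg_left h6 hC.le) hq0.le
          _ = _ := by ring
    _ = 7 * N * (C * (R : ℝ) ^ (-(c / 2 * R)) * (Fintype.card k : ℝ) ^ (2 * N) *
          ∑ r ∈ Icc 1 L, (r : ℝ) ^ (-(c / 2 * r))) := by
        rw [sum_const, card_range, nsmul_eq_mul, ← mul_sum]
        push_cast
        ring
    _ ≤ 7 * N * (C * (R : ℝ) ^ (-(c / 2 * R)) * (Fintype.card k : ℝ) ^ (2 * N) * S) := by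
        refine mul_le_mul_of_nonneg_left ?_ (by positivity)
        refine mul_le_mul_of_nonneg_left ?_ (by positivity)
        exact (summ ha).sum_le_tsum _ (fun r _ => by positivity)
    _ = 7 * C * S * (R : ℝ) ^ (-(c / 2 * R)) * N * (Fintype.card k : ℝ) ^ (2 * N) := by ring


/-- transport of the data -/
noncomputable def ED.trans {k : Type} [Field k] [Fintype k] {f₀ : k[X][X]} {A B B' : k[X]} {g : ℕ} {K K' : ℝ}
    (E : ED f₀ A B g K) (hB : B = B') (hK : K = K') : ED f₀ A B' g K' where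
  D := E.D
  α := E.α
  D' := E.D'
  β := E.β
  bad := E.bad
  loc := E.loc
  hD := by rw [← hK]; exact E.hD
  hD' := by rw [← hK]; exact E.hD'
  hbad := by rw [← hK]; exact E.hbad
  hα := E.hα
  hβ := E.hβ
  hloc := E.hloc
  htr := fun P h1 h2 h3 => by rw [← hB]; exact E.htr P h1 h2 h3
  hform := E.hform

lemma trans_shift_big {k : Type} [Field k] [Fintype k] {f₀ : k[X][X]} {A B B' h : k[X]} {g : ℕ} {K K' : ℝ}
    (E : ED f₀ A B g K) (hB : B = B' + h) (hK : K = K') (R : ℕ) :
    #(bigIdx (E.trans hB hK).shift R) = #(bigIdx E R) := rfl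

/-- **The large generalized eigenspaces, for all the elliptic surfaces.** -/
theorem mult_avg_ell :
    ∃ c C : ℝ, 0 < c ∧ 0 < C ∧ ∀ (k : Type) [Field k] [Fintype k], ringChar k ≠ 2 →
      ∀ d : ℕ, 1 ≤ d → ∀ R : ℕ, 1 ≤ R → ∀ (T : Type) [Fintype T] (w : T → k[X] × k[X])
        (_ : Function.Injective w) (_ : ∀ v, (w v).1.degree < 4 * d ∧ (w v).2.degree < 6 * d)
        (E : ∀ v : T, ED (X ^ 3) (w v).1 (w v).2 2 (28 * d)),
        (∑ v : T, (#(bigIdx (E v) R) : ℝ)) ≤
          C * (R : ℝ) ^ (-(c * R)) * d * (Fintype.card k : ℝ) ^ (10 * d) := by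
  classical
  obtain ⟨c, C', hc, hC, H⟩ := mult_avg 3 2 (by omega) (by decide) (by omega) (κ := 7) (by norm_num)
  refine ⟨c, 4 * C', hc, by positivity, fun k _ _ h2 d hd R hR T _ w hw hdeg E => ?_⟩
  have : Finite (degreeLT k (2 * d)) := Finite.of_equiv _ (degreeLTEquiv k (2 * d)).toEquiv.symm
  let _ := Fintype.ofFinite (degreeLT k (2 * d))
  have hXm : (X ^ (4 * d) : k[X]).Monic := monic_X_pow _
  have hdiv : ∀ B : k[X], B = B %ₘ X ^ (4 * d) + X ^ (4 * d) * (B /ₘ X ^ (4 * d)) := fun B =>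
    (modByMonic_add_div B _).symm
  have hb1 : ∀ B : k[X], B %ₘ X ^ (4 * d) ∈ degreeLT k (4 * d) := by
    intro B
    rw [mem_degreeLT]
    have := degree_modByMonic_lt B hXm
    rwa [degree_X_pow] at this
  have hb2 : ∀ B : k[X], B.degree < 6 * d → B /ₘ X ^ (4 * d) ∈ degreeLT k (2 * d) := by
    intro B h4
    rw [mem_degreeLT]
    by_cases h0 : B /ₘ X ^ (4 * d) = 0
    · rw [h0, degree_zero]
      exact WithBot.bot_lt_coe _
    · have hB0 : B ≠ 0 := by
        rintro rfl
        exact h0 (zero_divByMonic _)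
      rw [degree_eq_natDegree h0]
      have h5 : (B /ₘ X ^ (4 * d)).natDegree = B.natDegree - 4 * d := by
        rw [natDegree_divByMonic B hXm, natDegree_X_pow]
      have h6 : B.natDegree < 6 * d := by
        have h7 : B.degree < ((6 * d : ℕ) : WithBot ℕ) := by
          push_cast
          exact h4
        exact (natDegree_lt_iff_degree_lt hB0).2 h7
      rw [h5]
      exact_mod_cast (by omega : B.natDegree - 4 * d < 2 * d)
  have hb3 : ∀ v, (w v).1 ∈ degreeLT k (4 * d) := by
    intro v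
    rw [mem_degreeLT]
    push_cast
    exact (hdeg v).1
  set ψ : T → degreeLT k (2 * d) := fun v => ⟨_, hb2 _ (hdeg v).2⟩ with hψ
  have hK : (28 * (d : ℝ)) = 7 * ((4 * d : ℕ) : ℝ) := by
    push_cast
    ring
  have h5 : ∀ b : degreeLT k (2 * d), (∑ v : {v : T // ψ v = b}, (#(bigIdx (E v.1) R) : ℝ)) ≤
      C' * (R : ℝ) ^ (-(c * R)) * (4 * d : ℕ) * (Fintype.card k : ℝ) ^ (2 * (4 * d)) := by
    intro b
    have hB : ∀ v : {v : T // ψ v = b}, (w v.1).2 = (w v.1).2 %ₘ X ^ (4 * d) + X ^ (4 * d) * (b : k[X]) := by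
      rintro ⟨v, rfl⟩
      exact hdiv _
    have h6 := H k h2 (4 * d) (by omega) (X ^ 3 + C (X ^ (4 * d) * (b : k[X])))
      (monic_X_pow_add_C _ (by norm_num)) (natDegree_X_pow_add_C) R hR {v : T // ψ v = b}
      (fun v => (⟨(w v.1).1, hb3 v.1⟩, ⟨(w v.1).2 %ₘ X ^ (4 * d), hb1 _⟩)) (by
        intro v v' hvv
        apply Subtype.ext
        apply hw
        have h7 : (w v.1).1 = (w v'.1).1 := congrArg (fun z => (z.1 : k[X])) hvv
        have h8 : (w v.1).2 %ₘ X ^ (4 * d) = (w v'.1).2 %ₘ X ^ (4 * d) :=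
          congrArg (fun z => (z.2 : k[X])) hvv
        refine Prod.ext h7 ?_
        rw [hB v, hB v', h8])
      (fun v => ((E v.1).trans (hB v) hK).shift)
    refine le_trans (le_of_eq ?_) h6
    exact Finset.sum_congr rfl fun v _ => by rw [trans_shift_big]
  have hcard : (Fintype.card (degreeLT k (2 * d)) : ℝ) = (Fintype.card k : ℝ) ^ (2 * d) := by
    rw [← Nat.card_eq_fintype_card, Nat.card_congr (degreeLTEquiv k (2 * d)).toEquiv,
      Nat.card_eq_fintype_card, Fintype.card_fun, Fintype.card_fin]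
    push_cast
    rfl
  rw [← Fintype.sum_fiberwise ψ]
  refine (sum_le_sum fun b _ => h5 b).trans (le_of_eq ?_)
  rw [sum_const, card_univ, nsmul_eq_mul, hcard]
  have h8 : (Fintype.card k : ℝ) ^ (10 * d) = (Fintype.card k : ℝ) ^ (2 * d) *
      (Fintype.card k : ℝ) ^ (2 * (4 * d)) := by
    rw [← pow_add]
    congr 1
    ring
  rw [h8]
  push_cast
  ring

section rank
open Module LinearMap

/-- the multiplicity of an eigenvalue -/
lemma mult_eq {V : Type} [AddCommGroup V] [Module ℂ V] [FiniteDimensional ℂ V] {D : ℕ} {α : Fin D → ℂ}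
    (Φ : Module.End ℂ V) (hχ : Φ.charpoly = ∏ i, (X - C (α i))) (μ : ℂ) :
    finrank ℂ (Φ.maxGenEigenspace μ) = #(univ.filter fun j => α j = μ) := by
  classical
  rw [LinearMap.finrank_maxGenEigenspace_eq, hχ, ← Polynomial.count_roots]
  have h1 : (∏ i, (X - C (α i))).roots = Multiset.map α (univ : Finset (Fin D)).val := by
    have : (∏ i, (X - C (α i))) = (Multiset.map (fun a => X - C a)
        (Multiset.map α (univ : Finset (Fin D)).val)).prod := by
      rw [Multiset.map_map]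
      rfl
    rw [this, roots_multiset_prod_X_sub_C]
  rw [h1, Multiset.count_map]
  rw [Finset.card_def, Finset.filter_val]
  congr 2
  ext i
  exact eq_comm

lemma rank_pow_le {V : Type} [AddCommGroup V] [Module ℂ V] [FiniteDimensional ℂ V] {D : ℕ}
    {α : Fin D → ℂ} (Φ n : Module.End ℂ V) (hχ : Φ.charpoly = ∏ i, (X - C (α i)))
    (hc : Commute Φ n) (hn : IsNilpotent n) (R : ℕ) :
    finrank ℂ (LinearMap.range (n ^ R)) ≤
      #(open Classical in univ.filter fun i => R + 1 ≤ #(univ.filter fun j => α j = α i)) := by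
  classical
  set s : Finset (Fin D) := univ.filter fun i => R + 1 ≤ #(univ.filter fun j => α j = α i) with hs
  have h1 : LinearMap.range (n ^ R) ≤ (s.image α).sup fun μ => Φ.maxGenEigenspace μ := by
    rw [LinearMap.range_eq_map, ← Module.End.iSup_maxGenEigenspace_eq_top Φ, Submodule.map_iSup]
    refine iSup_le fun μ => ?_
    by_cases h : R + 1 ≤ finrank ℂ (Φ.maxGenEigenspace μ)
    · have h2 : μ ∈ s.image α := by
        rw [mult_eq Φ hχ μ] at h
        have h3 : (univ.filter fun j => α j = μ).Nonempty := by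
          rw [← Finset.card_pos]
          omega
        obtain ⟨i, hi⟩ := h3
        have hi' := (mem_filter.1 hi).2
        rw [mem_image]
        refine ⟨i, ?_, hi'⟩
        rw [hs, mem_filter, hi']
        exact ⟨mem_univ _, h⟩
      have h4 : Submodule.map (n ^ R) (Φ.maxGenEigenspace μ) ≤ Φ.maxGenEigenspace μ := by
        rw [Submodule.map_le_iff_le_comap]
        exact Module.End.mapsTo_maxGenEigenspace_of_comm (hc.pow_right R) μ
      exact h4.trans (Finset.le_sup (f := fun μ => Φ.maxGenEigenspace μ) h2)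
    · have hmap := Module.End.mapsTo_maxGenEigenspace_of_comm hc μ
      set n' : Module.End ℂ (Φ.maxGenEigenspace μ) := n.restrict hmap with hn'
      have h5 : IsNilpotent n' := Module.End.isNilpotent.restrict hmap hn
      have h6 : n' ^ R = 0 := by
        obtain ⟨m, hm⟩ := h5
        have h7 := Module.End.ker_pow_le_ker_pow_finrank n' m
        rw [hm, LinearMap.ker_zero, top_le_iff, LinearMap.ker_eq_top] at h7
        exact pow_eq_zero_of_le (by omega) h7
      have h8 : Submodule.map (n ^ R) (Φ.maxGenEigenspace μ) = ⊥ := by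
        rw [eq_bot_iff, Submodule.map_le_iff_le_comap]
        intro x hx
        rw [Submodule.mem_comap, Submodule.mem_bot]
        have h9 : ((n' ^ R) ⟨x, hx⟩ : V) = (n ^ R) x := by
          rw [hn', Module.End.pow_restrict R hmap]
          rfl
        rw [← h9, h6]
        rfl
      rw [h8]
      exact bot_le
  have h2 : ∀ t : Finset ℂ, finrank ℂ (t.sup fun μ => Φ.maxGenEigenspace μ : Submodule ℂ V) ≤
      ∑ μ ∈ t, finrank ℂ (Φ.maxGenEigenspace μ) := by
    intro t
    induction t using Finset.induction_on with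
    | empty => simp
    | insert a t ha ih =>
      rw [Finset.sup_insert, sum_insert ha]
      exact (Submodule.finrank_add_le_finrank_add_finrank _ _).trans (by omega)
  refine (Submodule.finrank_mono h1).trans ((h2 _).trans (le_of_eq ?_))
  simp_rw [mult_eq Φ hχ]
  rw [Finset.card_eq_sum_card_image α s]
  refine sum_congr rfl fun μ hμ => ?_
  obtain ⟨i, hi, rfl⟩ := mem_image.1 hμ
  congr 1
  ext j
  rw [mem_filter, mem_filter]
  constructor
  · rintro ⟨_, h⟩
    refine ⟨?_, h⟩
    rw [hs, mem_filter] at hi ⊢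
    rw [h]
    exact ⟨mem_univ _, hi.2⟩
  · rintro ⟨_, h⟩
    exact ⟨mem_univ _, h⟩

end rank

end Pool.Agent.N430.RT
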