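import Pool.Agent.N430.RT.A6

set_option autoImplicit false
set_option linter.all false

/-! The number of Tate classes over all the extensions of the field of constants. -/

namespace Pool.Agent.N430.RT

open Finset Polynomial Pool.Agent.N430.BP Pool.Agent.N430.BP.FF Pool.Agent.R410.NG

/-- the roots of unity -/
noncomputable def zt (m j : ℕ) : ℂ := Complex.exp (2 * Real.pi * Complex.I / m) ^ j

lemma zt_norm {m : ℕ} (hm : 1 ≤ m) (j : ℕ) : ‖zt m j‖ = 1 := by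
  unfold zt
  rw [norm_pow, (Complex.isPrimitiveRoot_exp m (by omega)).norm'_eq_one (by omega), one_pow]

lemma exists_zt {m : ℕ} (hm : 1 ≤ m) {u : ℂ} (hu : u ^ m = 1) : ∃ j ∈ range m, u = zt m j := by
  have : NeZero m := ⟨by omega⟩
  obtain ⟨i, hi, h⟩ := (Complex.isPrimitiveRoot_exp m (by omega)).eq_pow_of_pow_eq_one hu
  exact ⟨i, mem_range.2 hi, h.symm⟩

lemma zt_sum {m : ℕ} (hm : 1 ≤ m) (n : ℕ) :
    ∑ j ∈ range m, ((zt m j)⁻¹ ^ n).re = if m ∣ n then (m : ℝ) else 0 := by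
  have hp := Complex.isPrimitiveRoot_exp m (by omega)
  set ζ := Complex.exp (2 * Real.pi * Complex.I / m) with hζ
  have h1 : ∀ j, (zt m j)⁻¹ ^ n = (ζ⁻¹ ^ n) ^ j := by
    intro j
    unfold zt
    rw [← hζ, ← inv_pow, ← pow_mul, ← pow_mul, mul_comm]
  rw [← Complex.re_sum]
  simp only [h1]
  split_ifs with h
  · have h2 : ζ⁻¹ ^ n = 1 := (hp.inv.pow_eq_one_iff_dvd n).2 h
    rw [h2]
    simp
  · have h2 : ζ⁻¹ ^ n ≠ 1 := fun h3 => h ((hp.inv.pow_eq_one_iff_dvd n).1 h3)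
    have h3 : (ζ⁻¹ ^ n) ^ m = 1 := by
      rw [← pow_mul, mul_comm, pow_mul, hp.inv.pow_eq_one, one_pow]
    rw [geom_sum_eq h2, h3, sub_self, zero_div, Complex.zero_re]

/-- the coefficients -/
noncomputable def dM (M m n : ℕ) : ℝ :=
  8 / ((M : ℝ) + 1) ^ 2 * ((M : ℝ) + 1 - n) * (-(if m ∣ n then (m : ℝ) else 0))

lemma dM_eq {M m : ℕ} (hm : 1 ≤ m) (n : ℕ) : ∑ j ∈ range m, cM M (zt m j) n = dM M m n := by
  unfold cM dM
  rw [← Finset.mul_sum, Finset.sum_neg_distrib, zt_sum hm]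

lemma dM_bound {M m n : ℕ} (hn : n ≤ M) : |dM M m n| ≤ 8 / ((M : ℝ) + 1) * (if m ∣ n then (m : ℝ) else 0) := by
  unfold dM
  have h2 : (n : ℝ) ≤ M := by exact_mod_cast hn
  have h3 : 0 ≤ (M : ℝ) + 1 - n := by linarith
  have h0 : (0 : ℝ) ≤ n := Nat.cast_nonneg _
  have h4 : (0 : ℝ) ≤ if m ∣ n then (m : ℝ) else 0 := by positivity
  rw [abs_mul, abs_mul, abs_neg, abs_of_nonneg (by positivity : (0 : ℝ) ≤ 8 / ((M : ℝ) + 1) ^ 2),
    abs_of_nonneg h3, abs_of_nonneg h4]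
  have hM : (0 : ℝ) < (M : ℝ) + 1 := by positivity
  refine mul_le_mul_of_nonneg_right ?_ h4
  calc 8 / ((M : ℝ) + 1) ^ 2 * ((M : ℝ) + 1 - n) ≤
      8 / ((M : ℝ) + 1) ^ 2 * ((M : ℝ) + 1) := mul_le_mul_of_nonneg_left (by linarith) (by positivity)
    _ = _ := by
      field_simp

section
variable {k : Type} [Field k] [Fintype k]

/-- the random sum -/
noncomputable def TM (f₀ : k[X][X]) (M m : ℕ) (v : k[X] × k[X]) : ℝ :=
  ∑ n ∈ range M, dM M m (n + 1) * (((n + 1 : ℕ) : ℝ) * rk k ^ (2 * (n + 1)) *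
    ∑ P ∈ IR k (n + 1), trP f₀ v.1 v.2 P)

lemma TM_eq (f₀ : k[X][X]) {M m : ℕ} (hm : 1 ≤ m) (v : k[X] × k[X]) :
    ∑ j ∈ range m, TT f₀ M (zt m j) v = TM f₀ M m v := by
  unfold TT TM
  rw [Finset.sum_comm]
  refine Finset.sum_congr rfl fun n _ => ?_
  rw [← Finset.sum_mul, dM_eq hm]

/-- the indices of the roots of unity -/
noncomputable def tor {f₀ : k[X][X]} {A B : k[X]} {g : ℕ} {K : ℝ} (E : ED f₀ A B g K) (m : ℕ) :
    Finset (Fin E.D) :=
  open Classical in univ.filter fun i => (E.α i / (Fintype.card k : ℂ)) ^ m = 1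

/-- **The number of roots of unity.** -/
theorem tor_le {f₀ : k[X][X]} {A B : k[X]} {g : ℕ} {K : ℝ} (E : ED f₀ A B g K) (hf : f₀.Monic)
    {n₀ : ℕ} (hn₀ : f₀.natDegree = n₀) (h3 : 3 ≤ n₀) (hodd : Odd n₀) (hK : 0 ≤ K) (M : ℕ) {m : ℕ}
    (hm : 1 ≤ m) :
    (#(tor E m) : ℝ) ≤ m * ((36 + 32 * n₀) * (K / (M + 1)) + 16 * g) + TM f₀ M m (A, B) := by
  classical
  have h1 : tor E m ⊆ (range m).biUnion fun j => univ.filter fun i =>
      E.α i / (Fintype.card k : ℂ) = zt m j := by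
    intro i hi
    unfold tor at hi
    rw [mem_filter] at hi
    obtain ⟨j, hj, h⟩ := exists_zt hm hi.2
    rw [mem_biUnion]
    exact ⟨j, hj, mem_filter.2 ⟨mem_univ _, h⟩⟩
  have h2 : (#(tor E m) : ℝ) ≤ ∑ j ∈ range m, (#(univ.filter fun i =>
      E.α i / (Fintype.card k : ℂ) = zt m j) : ℝ) := by
    have := (card_le_card h1).trans card_biUnion_le
    exact_mod_cast this
  refine h2.trans ?_
  have h4 : ∀ j ∈ range m, (#(univ.filter fun i => E.α i / (Fintype.card k : ℂ) = zt m j) : ℝ) ≤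
      ((36 + 32 * n₀) * (K / (M + 1)) + 16 * g) + TT f₀ M (zt m j) (A, B) := by
    intro j _
    refine count_main E hf hn₀ h3 hodd hK (zt_norm hm j) (M := M) (δ := 0) (by simp) _ fun i hi => ?_
    rw [(mem_filter.1 hi).2]
    simp
  refine (Finset.sum_le_sum h4).trans (le_of_eq ?_)
  rw [Finset.sum_add_distrib, Finset.sum_const, card_range, nsmul_eq_mul, TM_eq f₀ hm]

/-- **The moments of the random sum.** -/
theorem TM_moment (h2 : ringChar k ≠ 2) {f₀ : k[X][X]} (hf : f₀.Monic) {n₀ : ℕ}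
    (hn₀ : f₀.natDegree = n₀) (h3 : 3 ≤ n₀) (hodd : Odd n₀) {M N m s : ℕ} (hm : 1 ≤ m)
    (hs : 1 ≤ s) (hN : (2 * s + 1) * M ≤ N) :
    ∑ v : VV k N, TM f₀ M m ((v.1 : k[X]), (v.2 : k[X])) ^ (2 * s) ≤
      (768 * n₀ ^ 2 * m * s) ^ s * (Fintype.card k : ℝ) ^ (2 * N) := by
  classical
  obtain ⟨r0, r1⟩ := rk_bounds k
  have hMp : (0 : ℝ) < (M : ℝ) + 1 := by positivity
  have hm0 : (0 : ℝ) < m := by exact_mod_cast hm
  set I : Finset k[X] := (range M).biUnion fun n => IR k (n + 1) with hI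
  have hmem : ∀ P ∈ I, P.Monic ∧ Irreducible P ∧ P.natDegree ≤ M := by
    intro P hP
    rw [hI, Finset.mem_biUnion] at hP
    obtain ⟨n, hn, hP⟩ := hP
    obtain ⟨g1, g2, g3⟩ := mem_IR.1 hP
    rw [mem_range] at hn
    exact ⟨g1, g2, by omega⟩
  have hdis : ((range M : Finset ℕ) : Set ℕ).PairwiseDisjoint (fun n => IR k (n + 1)) := by
    intro n _ m _ hnm
    rw [Function.onFun, Finset.disjoint_left]
    intro P h1 h2
    have := (mem_IR.1 h1).2.2.symm.trans (mem_IR.1 h2).2.2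
    exact hnm (by omega)
  set w : ℕ → ℝ := fun n => if m ∣ n then (m : ℝ) else 0 with hw
  have hw0 : ∀ n, 0 ≤ w n := fun n => by rw [hw]; positivity
  set X : k[X] → k[X] × k[X] → ℝ := fun P v =>
    dM M m P.natDegree * ((P.natDegree : ℝ) * rk k ^ (2 * P.natDegree) * trP f₀ v.1 v.2 P) with hX
  set b : k[X] → ℝ := fun P => 8 / ((M : ℝ) + 1) * w P.natDegree * n₀ *
    (P.natDegree * rk k ^ P.natDegree) with hb
  have hsum : ∀ v, ∑ P ∈ I, X P v = TM f₀ M m v := by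
    intro v
    rw [hI, Finset.sum_biUnion hdis]
    unfold TM
    refine Finset.sum_congr rfl fun n _ => ?_
    rw [Finset.mul_sum, Finset.mul_sum]
    refine Finset.sum_congr rfl fun P hP => ?_
    rw [hX]
    simp only
    rw [(mem_IR.1 hP).2.2]
  have hV : ∑ Q ∈ I, b Q ^ 2 ≤ 64 * (n₀ : ℝ) ^ 2 * m := by
    rw [hI, Finset.sum_biUnion hdis]
    have h5 : ∀ n ∈ range M, ∑ P ∈ IR k (n + 1), b P ^ 2 ≤
        64 * (n₀ : ℝ) ^ 2 / ((M : ℝ) + 1) * (if m ∣ n + 1 then (m : ℝ) ^ 2 else 0) := by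
      intro n hn
      rw [mem_range] at hn
      have hnM : ((n + 1 : ℕ) : ℝ) ≤ M + 1 := by
        have : ((n + 1 : ℕ) : ℝ) ≤ M := by exact_mod_cast hn
        linarith
      have hw2 : w (n + 1) ^ 2 = if m ∣ n + 1 then (m : ℝ) ^ 2 else 0 := by
        rw [hw]
        simp only
        split_ifs
        · rfl
        · norm_num
      have h6 : ∑ P ∈ IR k (n + 1), b P ^ 2 = (8 / ((M : ℝ) + 1) * n₀) ^ 2 * w (n + 1) ^ 2 *
          (((n + 1 : ℕ) : ℝ) ^ 2 * ((#(IR k (n + 1)) : ℝ) * rk k ^ (2 * (n + 1)))) := by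
        rw [Finset.sum_congr rfl (g := fun _ => (8 / ((M : ℝ) + 1) * w (n + 1) * n₀ *
          (((n + 1 : ℕ) : ℝ) * rk k ^ (n + 1))) ^ 2) fun P hP => by
            rw [hb]
            simp only
            rw [(mem_IR.1 hP).2.2], Finset.sum_const, nsmul_eq_mul]
        ring
      rw [h6, ← hw2]
      have h7 := dens_le k (n := n + 1) (by omega)
      have h8 : (0 : ℝ) < ((n + 1 : ℕ) : ℝ) := by positivity
      have h9 : ((n + 1 : ℕ) : ℝ) ^ 2 * ((#(IR k (n + 1)) : ℝ) * rk k ^ (2 * (n + 1))) ≤ (M : ℝ) + 1 := by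
        calc ((n + 1 : ℕ) : ℝ) ^ 2 * ((#(IR k (n + 1)) : ℝ) * rk k ^ (2 * (n + 1))) ≤
            ((n + 1 : ℕ) : ℝ) ^ 2 * (1 / ((n + 1 : ℕ) : ℝ)) := mul_le_mul_of_nonneg_left h7 (by positivity)
          _ = ((n + 1 : ℕ) : ℝ) := by field_simp
          _ ≤ _ := hnM
      calc (8 / ((M : ℝ) + 1) * n₀) ^ 2 * w (n + 1) ^ 2 *
          (((n + 1 : ℕ) : ℝ) ^ 2 * ((#(IR k (n + 1)) : ℝ) * rk k ^ (2 * (n + 1)))) ≤
          (8 / ((M : ℝ) + 1) * n₀) ^ 2 * w (n + 1) ^ 2 * ((M : ℝ) + 1) :=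
            mul_le_mul_of_nonneg_left h9 (by positivity)
        _ = _ := by
            field_simp
            ring
    refine (Finset.sum_le_sum h5).trans ?_
    rw [← Finset.mul_sum, ← Finset.sum_filter, Finset.sum_const, nsmul_eq_mul, Nat.card_multiples]
    have h6 : ((M / m : ℕ) : ℝ) ≤ M / m := Nat.cast_div_le
    calc 64 * (n₀ : ℝ) ^ 2 / ((M : ℝ) + 1) * (((M / m : ℕ) : ℝ) * (m : ℝ) ^ 2) ≤
        64 * (n₀ : ℝ) ^ 2 / ((M : ℝ) + 1) * ((M / m) * (m : ℝ) ^ 2) :=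
          mul_le_mul_of_nonneg_left (mul_le_mul_of_nonneg_right h6 (by positivity)) (by positivity)
      _ = 64 * (n₀ : ℝ) ^ 2 * m * (M / ((M : ℝ) + 1)) := by
          field_simp
      _ ≤ 64 * (n₀ : ℝ) ^ 2 * m * 1 := by
          refine mul_le_mul_of_nonneg_left ?_ (by positivity)
          rw [div_le_one hMp]
          linarith
      _ = _ := mul_one _
  have hn0 : (0 : ℝ) < n₀ := by
    have : 0 < n₀ := by omega
    exact_mod_cast this
  have key := moment_sub (k := k) (X := X) (b := b) (x := M) (N := N) (I := I) (by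
      intro P hP
      obtain ⟨g1, g2, g3⟩ := hmem P hP
      refine ⟨g1, g2, g3, ?_⟩
      intro v v' h4 h5
      rw [hX]
      simp only
      rw [show trP f₀ v.1 v.2 P = trP f₀ v'.1 v'.2 P from trP_per f₀ P v v' h4 h5]) (by
      intro P hP
      obtain ⟨g1, g2, g3⟩ := hmem P hP
      have hwP := hw0 P.natDegree
      refine ⟨by positivity, fun v => ?_, ?_⟩
      · have h4 := trP_bound hf hn₀ h3 hodd g1 g2 v.1 v.2
        have h5 := dM_bound (m := m) g3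
        rw [hX]
        simp only
        rw [abs_mul, abs_mul, abs_of_nonneg (by positivity : (0:ℝ) ≤ (P.natDegree : ℝ) * rk k ^ (2 * P.natDegree))]
        calc |dM M m P.natDegree| * ((P.natDegree : ℝ) * rk k ^ (2 * P.natDegree) * |trP f₀ v.1 v.2 P|) ≤
            (8 / ((M : ℝ) + 1) * w P.natDegree) * ((P.natDegree : ℝ) * rk k ^ (2 * P.natDegree) *
              (n₀ * (rk k ^ P.natDegree)⁻¹)) := by
              refine mul_le_mul h5 (mul_le_mul_of_nonneg_left h4 (by positivity)) (by positivity)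
                (by positivity)
          _ = b P := by
            rw [hb]
            simp only
            rw [two_mul P.natDegree, pow_add]
            field_simp
      · have h4 := trP_mean h2 f₀ g1 g2 (N := N) (by nlinarith)
        unfold mV at h4 ⊢
        rw [hX]
        simp only
        have e : (fun v : VV k N => dM M m P.natDegree * ((P.natDegree : ℝ) * rk k ^ (2 * P.natDegree) *
            trP f₀ (v.1 : k[X]) (v.2 : k[X]) P)) = fun v : VV k N =>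
            (dM M m P.natDegree * ((P.natDegree : ℝ) * rk k ^ (2 * P.natDegree))) *
              trP f₀ (v.1 : k[X]) (v.2 : k[X]) P := by
          funext v
          ring
        rw [e, mn_mul_left, h4, mul_zero]) hs hN (V := 64 * (n₀ : ℝ) ^ 2 * m) (by positivity) hV
  simp only [hsum] at key
  have hc : (0 : ℝ) < Fintype.card (VV k N) := by exact_mod_cast Fintype.card_pos
  unfold mV mn at key
  rw [div_le_iff₀ hc, card_VV] at key
  refine key.trans (le_of_eq ?_)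
  push_cast
  congr 1
  congr 1
  ring

open Classical in
/-- the pairs with many Tate classes over the extension of degree `m` -/
noncomputable def mtc (k : Type) [Field k] [Fintype k] (N : ℕ) (f₀ : k[X][X]) (g : ℕ) (κ : ℝ) (R m : ℕ) :
    Finset (VV k N) :=
  univ.filter fun v : VV k N => ∃ E : ED f₀ (v.1 : k[X]) (v.2 : k[X]) g (κ * N), R * m ≤ #(tor E m)

/-- **Markov.** -/
lemma markov_m (h2 : ringChar k ≠ 2) {f₀ : k[X][X]} (hf : f₀.Monic) {n₀ : ℕ}
    (hn₀ : f₀.natDegree = n₀) (h3 : 3 ≤ n₀) (hodd : Odd n₀) {M N m s : ℕ} (hm : 1 ≤ m)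
    (hs : 1 ≤ s) (hN : (2 * s + 1) * M ≤ N) {R : ℝ} (hR : 0 < R) (S : Finset (VV k N))
    (hS : ∀ v ∈ S, R * m / 2 ≤ TM f₀ M m ((v.1 : k[X]), (v.2 : k[X]))) :
    (#S : ℝ) ≤ (3072 * n₀ ^ 2 * s / R ^ 2) ^ s * (1 / m) ^ s * (Fintype.card k : ℝ) ^ (2 * N) := by
  have hm0 : (0 : ℝ) < m := by exact_mod_cast hm
  have h1 := TM_moment h2 hf hn₀ h3 hodd hm hs hN
  have h4 : (#S : ℝ) * (R * m / 2) ^ (2 * s) ≤
      ∑ v : VV k N, TM f₀ M m ((v.1 : k[X]), (v.2 : k[X])) ^ (2 * s) := by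
    calc (#S : ℝ) * (R * m / 2) ^ (2 * s) = ∑ v ∈ S, (R * m / 2) ^ (2 * s) := by
          rw [Finset.sum_const, nsmul_eq_mul]
      _ ≤ ∑ v ∈ S, TM f₀ M m ((v.1 : k[X]), (v.2 : k[X])) ^ (2 * s) :=
          Finset.sum_le_sum fun v hv => pow_le_pow_left₀ (by positivity) (hS v hv) _
      _ ≤ _ := Finset.sum_le_sum_of_subset_of_nonneg (subset_univ _) fun v _ _ => by
          rw [pow_mul]
          positivity
  have h5 := h4.trans h1
  have h6 : (0 : ℝ) < (R * m / 2) ^ (2 * s) := by positivity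
  rw [← le_div_iff₀ h6] at h5
  refine h5.trans (le_of_eq ?_)
  have h7 : (R * m / 2) ^ (2 * s) = (R ^ 2 * m ^ 2 / 4) ^ s := by
    rw [pow_mul]
    congr 1
    ring
  rw [h7, mul_div_right_comm, ← div_pow, ← mul_pow]
  congr 2
  field_simp
  ring

end

/-- **The tail for one extension.** -/
theorem one_ext (n₀ g : ℕ) (h3 : 3 ≤ n₀) (hodd : Odd n₀) (hg : g ≤ n₀) {κ : ℝ} (hκ : 1 ≤ κ) :
    ∃ c R0 : ℝ, 0 < c ∧ 1 ≤ R0 ∧ ∀ (k : Type) [Field k] [Fintype k], ringChar k ≠ 2 →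
      ∀ N : ℕ, 1 ≤ N → ∀ f₀ : k[X][X], f₀.Monic → f₀.natDegree = n₀ →
      ∀ R m : ℕ, R0 ≤ R → 1 ≤ m →
        (#(mtc k N f₀ g κ R m) : ℝ) ≤
          (R : ℝ) ^ (-(c * R)) * (1 / (m : ℝ) ^ 2) * (Fintype.card k : ℝ) ^ (2 * N) := by
  classical
  have hn : (3 : ℝ) ≤ n₀ := by exact_mod_cast h3
  set a : ℝ := (36 + 32 * n₀) * κ with ha
  have ha1 : 36 + 32 * (n₀ : ℝ) ≤ a := by
    rw [ha]
    nlinarith
  have ha0 : 0 < a := by linarith
  set R0 : ℝ := 16 * a + 144 * (n₀ : ℝ) ^ 2 with hR0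
  have hR01 : 1 ≤ R0 := by nlinarith
  set c : ℝ := 1 / (32 * a) with hc
  have hc0 : 0 < c := by positivity
  refine ⟨c, R0, hc0, hR01, ?_⟩
  intro k _ _ h2 N hN f₀ hf hn₀ R m hRR hm
  have hRr : (1 : ℝ) ≤ R := by linarith
  have hm0 : (1 : ℝ) ≤ m := by exact_mod_cast hm
  have hq0 : (0 : ℝ) < (Fintype.card k : ℝ) ^ (2 * N) := by
    have : (0 : ℝ) < Fintype.card k := by exact_mod_cast Fintype.card_pos
    positivity
  have hRa : 16 * a ≤ R := by
    have : (0 : ℝ) ≤ 144 * (n₀ : ℝ) ^ 2 := by positivity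
    linarith
  set y : ℝ := R / (8 * a) with hy
  have hy1 : 2 ≤ y := by
    rw [hy, le_div_iff₀ (by positivity)]
    linarith
  set s : ℕ := ⌊y⌋₊ with hs
  have hsy : (s : ℝ) ≤ y := Nat.floor_le (by linarith)
  have hs2 : 2 ≤ s := by
    rw [hs, Nat.le_floor_iff (by linarith)]
    exact_mod_cast hy1
  have hs1' : (1 : ℝ) ≤ s := by exact_mod_cast (by omega : 1 ≤ s)
  have hsy2 : y / 2 ≤ s := by
    have h1 : y < s + 1 := Nat.lt_floor_add_one y
    linarith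
  set M : ℕ := N / (2 * s + 1) with hM
  have hMN : (2 * s + 1) * M ≤ N := Nat.mul_div_le N (2 * s + 1)
  have hMN2 : N < (2 * s + 1) * (M + 1) := by
    rw [hM, mul_add, mul_one]
    exact Nat.lt_mul_div_succ N (by omega)
  have hMN3 : (N : ℝ) ≤ (2 * s + 1) * (M + 1) := by exact_mod_cast hMN2.le
  have hNr : (1 : ℝ) ≤ N := by exact_mod_cast hN
  have hya : a * y = R / 8 := by
    rw [hy]
    field_simp
  have hS : ∀ v ∈ mtc k N f₀ g κ R m, (R : ℝ) * m / 2 ≤ TM f₀ M m ((v.1 : k[X]), (v.2 : k[X])) := by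
    intro v hv
    unfold mtc at hv
    rw [mem_filter] at hv
    obtain ⟨_, E, hRS⟩ := hv
    have h4 := tor_le E hf hn₀ h3 hodd (by positivity) M hm
    have h5 : (R : ℝ) * m ≤ #(tor E m) := by exact_mod_cast hRS
    have h6 : κ * N / ((M : ℝ) + 1) ≤ κ * (2 * s + 1) := by
      rw [div_le_iff₀ (by positivity), mul_assoc]
      exact mul_le_mul_of_nonneg_left hMN3 (by linarith)
    have h7 : (36 + 32 * (n₀ : ℝ)) * (κ * N / (M + 1)) ≤ a * (2 * s + 1) := by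
      rw [ha, mul_assoc]
      exact mul_le_mul_of_nonneg_left h6 (by positivity)
    have h8 : (g : ℝ) ≤ n₀ := by exact_mod_cast hg
    have h9 : a * s ≤ R / 8 := by
      rw [← hya]
      exact mul_le_mul_of_nonneg_left hsy ha0.le
    have h10 : (36 + 32 * (n₀ : ℝ)) * (κ * N / (M + 1)) + 16 * g ≤ R / 2 := by nlinarith
    have h11 : (m : ℝ) * ((36 + 32 * (n₀ : ℝ)) * (κ * N / (M + 1)) + 16 * g) ≤ m * (R / 2) :=
      mul_le_mul_of_nonneg_left h10 (by linarith)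
    linarith
  have key := markov_m h2 hf hn₀ h3 hodd hm (by omega) hMN (R := R) (by linarith) _ hS
  have h4 : 3072 * (n₀ : ℝ) ^ 2 * s / (R : ℝ) ^ 2 ≤ (R : ℝ) ^ (-(1 / 2 : ℝ)) := by
    have h5 : 12 * (n₀ : ℝ) ≤ √(R : ℝ) := by
      apply Real.le_sqrt_of_sq_le
      have h6 : (12 * (n₀ : ℝ)) ^ 2 = 144 * (n₀ : ℝ) ^ 2 := by ring
      rw [h6]
      linarith
    have h6 : (R : ℝ) ^ (-(1 / 2 : ℝ)) = (√(R : ℝ))⁻¹ := by
      rw [Real.rpow_neg (by linarith), Real.sqrt_eq_rpow]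
    rw [h6]
    have hs0 : 0 < √(R : ℝ) := Real.sqrt_pos.2 (by linarith)
    have hs2 : √(R : ℝ) ^ 2 = R := Real.sq_sqrt (by linarith)
    rw [div_le_iff₀ (by positivity)]
    have h7 : (√(R : ℝ))⁻¹ * (R : ℝ) ^ 2 = √(R : ℝ) * R := by
      have : (R : ℝ) ^ 2 = √(R : ℝ) * (√(R : ℝ) * R) := by
        rw [← mul_assoc, ← sq, hs2]
        ring
      rw [this, ← mul_assoc, inv_mul_cancel₀ hs0.ne', one_mul]
    rw [h7]
    have h8 : 32 * (n₀ : ℝ) * s ≤ R / 8 := by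
      have h9 : 32 * (n₀ : ℝ) * s ≤ a * s := mul_le_mul_of_nonneg_right (by linarith) (by linarith)
      have h10 : a * s ≤ R / 8 := by
        rw [← hya]
        exact mul_le_mul_of_nonneg_left hsy ha0.le
      linarith
    calc 3072 * (n₀ : ℝ) ^ 2 * s = (12 * n₀) * (8 * (32 * n₀ * s)) := by ring
      _ ≤ √(R : ℝ) * (8 * (R / 8)) :=
          mul_le_mul h5 (by linarith) (by positivity) hs0.le
      _ = _ := by ring
  have h5 : (3072 * (n₀ : ℝ) ^ 2 * s / (R : ℝ) ^ 2) ^ s ≤ (R : ℝ) ^ (-(c * R)) := by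
    calc (3072 * (n₀ : ℝ) ^ 2 * s / (R : ℝ) ^ 2) ^ s ≤ ((R : ℝ) ^ (-(1 / 2 : ℝ))) ^ s :=
          pow_le_pow_left₀ (by positivity) h4 s
      _ = (R : ℝ) ^ (-(1 / 2 : ℝ) * s) := by
          rw [← Real.rpow_natCast, ← Real.rpow_mul (by linarith)]
      _ ≤ (R : ℝ) ^ (-(c * R)) := by
          apply Real.rpow_le_rpow_of_exponent_le hRr
          have h6 : c * R = y / 4 := by
            rw [hc, hy]
            field_simp
            ring
          rw [h6]
          linarith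
  have h6 : (1 / (m : ℝ)) ^ s ≤ 1 / (m : ℝ) ^ 2 := by
    rw [one_div, inv_pow, one_div]
    exact inv_anti₀ (by positivity) (pow_le_pow_right₀ hm0 hs2)
  calc (#(mtc k N f₀ g κ R m) : ℝ) ≤
      (3072 * (n₀ : ℝ) ^ 2 * s / (R : ℝ) ^ 2) ^ s * (1 / (m : ℝ)) ^ s * (Fintype.card k : ℝ) ^ (2 * N) := key
    _ ≤ (R : ℝ) ^ (-(c * R)) * (1 / (m : ℝ) ^ 2) * (Fintype.card k : ℝ) ^ (2 * N) :=
        mul_le_mul_of_nonneg_right (mul_le_mul h5 h6 (by positivity) (by positivity)) hq0.le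

/-- **The tail for all the extensions.** -/
theorem all_ext (n₀ g : ℕ) (h3 : 3 ≤ n₀) (hodd : Odd n₀) (hg : g ≤ n₀) {κ : ℝ} (hκ : 1 ≤ κ) :
    ∃ c C : ℝ, 0 < c ∧ 0 < C ∧ ∀ (k : Type) [Field k] [Fintype k], ringChar k ≠ 2 →
      ∀ N : ℕ, 1 ≤ N → ∀ f₀ : k[X][X], f₀.Monic → f₀.natDegree = n₀ →
      ∀ R : ℕ, 1 ≤ R → ∀ (T : Type) [Fintype T] (w : T → VV k N) (_ : Function.Injective w)
        (E : ∀ v : T, ED f₀ ((w v).1 : k[X]) ((w v).2 : k[X]) g (κ * N)),
        (∑ v : T, open Classical in if ∃ m, 1 ≤ m ∧ R * m ≤ #(tor (E v) m) then (1 : ℝ) else 0) ≤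
          C * (R : ℝ) ^ (-(c * R)) * (Fintype.card k : ℝ) ^ (2 * N) := by
  classical
  obtain ⟨c, R0, hc, hR0, H⟩ := one_ext n₀ g h3 hodd hg hκ
  have hsm : Summable fun m : ℕ => 1 / (m : ℝ) ^ 2 := Real.summable_one_div_nat_pow.2 one_lt_two
  set S2 : ℝ := ∑' m : ℕ, 1 / (m : ℝ) ^ 2 with hS2
  have hS20 : 0 ≤ S2 := tsum_nonneg fun m => by positivity
  have hC1 : 1 ≤ R0 ^ (c * R0) := Real.one_le_rpow hR0 (by positivity)
  refine ⟨c, R0 ^ (c * R0) + S2, hc, by linarith, ?_⟩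
  intro k _ _ h2 N hN f₀ hf hn₀ R hR T _ w hw E
  have hRr : (1 : ℝ) ≤ R := by exact_mod_cast hR
  have hq0 : (0 : ℝ) < (Fintype.card k : ℝ) ^ (2 * N) := by
    have : (0 : ℝ) < Fintype.card k := by exact_mod_cast Fintype.card_pos
    positivity
  have hRp : (0 : ℝ) < (R : ℝ) ^ (-(c * R)) := by positivity
  by_cases hRR : (R : ℝ) < R0
  · have h1 : (R : ℝ) ^ (c * R) ≤ R0 ^ (c * R0) := by
      calc (R : ℝ) ^ (c * R) ≤ R0 ^ (c * R) :=
            Real.rpow_le_rpow (by linarith) hRR.le (by positivity)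
        _ ≤ R0 ^ (c * R0) := Real.rpow_le_rpow_of_exponent_le hR0
            (mul_le_mul_of_nonneg_left hRR.le hc.le)
    have h4 : 1 ≤ R0 ^ (c * R0) * (R : ℝ) ^ (-(c * R)) := by
      rw [Real.rpow_neg (by linarith), ← div_eq_mul_inv, one_le_div (by positivity)]
      exact h1
    have h5 : (∑ v : T, if ∃ m, 1 ≤ m ∧ R * m ≤ #(tor (E v) m) then (1 : ℝ) else 0) ≤
        (Fintype.card k : ℝ) ^ (2 * N) := by
      calc (∑ v : T, if ∃ m, 1 ≤ m ∧ R * m ≤ #(tor (E v) m) then (1 : ℝ) else 0) ≤ ∑ v : T, (1 : ℝ) := by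
            refine sum_le_sum fun v _ => ?_
            split_ifs <;> norm_num
        _ = Fintype.card T := by rw [sum_const, card_univ, nsmul_eq_mul, mul_one]
        _ ≤ Fintype.card (VV k N) := by exact_mod_cast Fintype.card_le_of_injective w hw
        _ = _ := by
          rw [card_VV]
          push_cast
          rfl
    refine h5.trans ?_
    have h6 : 0 ≤ S2 * (R : ℝ) ^ (-(c * R)) := by positivity
    nlinarith
  push Not at hRR
  set L : ℕ := ⌊κ * N⌋₊ with hL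
  have h1 : (∑ v : T, if ∃ m, 1 ≤ m ∧ R * m ≤ #(tor (E v) m) then (1 : ℝ) else 0) ≤
      ∑ v : T, ∑ m ∈ Icc 1 L, if R * m ≤ #(tor (E v) m) then (1 : ℝ) else 0 := by
    refine sum_le_sum fun v _ => ?_
    split_ifs with h
    · obtain ⟨m, hm1, hm2⟩ := h
      have h4 : #(tor (E v) m) ≤ L := by
        refine (card_le_univ _).trans ?_
        rw [Fintype.card_fin]
        exact Nat.le_floor (E v).hD
      have hmL : m ∈ Icc 1 L := by
        rw [mem_Icc]
        refine ⟨hm1, ?_⟩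
        nlinarith
      refine le_trans (le_of_eq ?_) (single_le_sum (f := fun m => if R * m ≤ #(tor (E v) m) then (1 : ℝ) else 0)
        (fun m _ => by positivity) hmL)
      rw [if_pos hm2]
    · exact sum_nonneg fun m _ => by positivity
  refine h1.trans ?_
  rw [sum_comm]
  have h4 : ∀ m ∈ Icc 1 L, (∑ v : T, if R * m ≤ #(tor (E v) m) then (1 : ℝ) else 0) ≤
      (R : ℝ) ^ (-(c * R)) * (1 / (m : ℝ) ^ 2) * (Fintype.card k : ℝ) ^ (2 * N) := by
    intro m hm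
    rw [mem_Icc] at hm
    refine le_trans ?_ (H k h2 N hN f₀ hf hn₀ R m hRR hm.1)
    rw [← sum_filter, sum_const, nsmul_eq_mul, mul_one]
    have h5 : #((univ : Finset T).filter fun v => R * m ≤ #(tor (E v) m)) ≤ #(mtc k N f₀ g κ R m) := by
      refine card_le_card_of_injOn w ?_ ?_
      · intro v hv
        rw [mem_coe, mem_filter] at hv
        rw [mem_coe]
        unfold mtc
        rw [mem_filter]
        exact ⟨mem_univ _, E v, hv.2⟩
      · intro v _ v' _ hvw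
        exact hw hvw
    exact_mod_cast h5
  refine (sum_le_sum h4).trans ?_
  rw [← sum_mul, ← mul_sum]
  have h5 : ∑ m ∈ Icc 1 L, 1 / (m : ℝ) ^ 2 ≤ S2 := hsm.sum_le_tsum _ fun m _ => by positivity
  refine mul_le_mul_of_nonneg_right ?_ hq0.le
  calc (R : ℝ) ^ (-(c * R)) * ∑ m ∈ Icc 1 L, 1 / (m : ℝ) ^ 2 ≤ (R : ℝ) ^ (-(c * R)) * S2 :=
        mul_le_mul_of_nonneg_left h5 hRp.le
    _ ≤ (R0 ^ (c * R0) + S2) * (R : ℝ) ^ (-(c * R)) := by nlinarith

lemma trans_shift_tor {k : Type} [Field k] [Fintype k] {f₀ : k[X][X]} {A B B' h : k[X]} {g : ℕ} {K K' : ℝ}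
    (E : ED f₀ A B g K) (hB : B = B' + h) (hK : K = K') (m : ℕ) :
    #(tor (E.trans hB hK).shift m) = #(tor E m) := rfl

/-- **The tail for all the extensions and all the elliptic surfaces.** -/
theorem all_ext_ell :
    ∃ c C : ℝ, 0 < c ∧ 0 < C ∧ ∀ (k : Type) [Field k] [Fintype k], ringChar k ≠ 2 →
      ∀ d : ℕ, 1 ≤ d → ∀ R : ℕ, 1 ≤ R → ∀ (T : Type) [Fintype T] (w : T → k[X] × k[X])
        (_ : Function.Injective w) (_ : ∀ v, (w v).1.degree < 4 * d ∧ (w v).2.degree < 6 * d)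
        (E : ∀ v : T, ED (X ^ 3) (w v).1 (w v).2 2 (28 * d)),
        (∑ v : T, open Classical in if ∃ m, 1 ≤ m ∧ R * m ≤ #(tor (E v) m) then (1 : ℝ) else 0) ≤
          C * (R : ℝ) ^ (-(c * R)) * (Fintype.card k : ℝ) ^ (10 * d) := by
  classical
  obtain ⟨c, C', hc, hC, H⟩ := all_ext 3 2 (by omega) (by decide) (by omega) (κ := 7) (by norm_num)
  refine ⟨c, C', hc, by positivity, fun k _ _ h2 d hd R hR T _ w hw hdeg E => ?_⟩
  have : Finite (degreeLT k (2 * d)) := Finite.of_equiv _ (degreeLTEquiv k (2 * d)).toEquiv.symm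
  let _ := Fintype.ofFinite (degreeLT k (2 * d))
  have hXm : (X ^ (4 * d) : k[X]).Monic := monic_X_pow _
  have hdiv : ∀ B : k[X], B = B %ₘ X ^ (4 * d) + X ^ (4 * d) * (B /ₘ X ^ (4 * d)) := fun B =>
    (modByMonic_add_div B _).symm
  have hb1 : ∀ B : k[X], B %ₘ X ^ (4 * d) ∈ degreeLT k (4 * d) := by
    intro B
    rw [mem_degreeLT]
    have := degree_modByMonic_lt B hXm
    rwa [degree_X_pow] at this
  have hb2 : ∀ B : k[X], B.degree < 6 * d → B /ₘ X ^ (4 * d) ∈ degreeLT k (2 * d) := by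
    intro B h4
    rw [mem_degreeLT]
    by_cases h0 : B /ₘ X ^ (4 * d) = 0
    · rw [h0, degree_zero]
      exact WithBot.bot_lt_coe _
    · have hB0 : B ≠ 0 := by
        rintro rfl
        exact h0 (zero_divByMonic _)
      rw [degree_eq_natDegree h0]
      have h5 : (B /ₘ X ^ (4 * d)).natDegree = B.natDegree - 4 * d := by
        rw [natDegree_divByMonic B hXm, natDegree_X_pow]
      have h6 : B.natDegree < 6 * d := by
        have h7 : B.degree < ((6 * d : ℕ) : WithBot ℕ) := by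
          push_cast
          exact h4
        exact (natDegree_lt_iff_degree_lt hB0).2 h7
      rw [h5]
      exact_mod_cast (by omega : B.natDegree - 4 * d < 2 * d)
  have hb3 : ∀ v, (w v).1 ∈ degreeLT k (4 * d) := by
    intro v
    rw [mem_degreeLT]
    push_cast
    exact (hdeg v).1
  set ψ : T → degreeLT k (2 * d) := fun v => ⟨_, hb2 _ (hdeg v).2⟩ with hψ
  have hK : (28 * (d : ℝ)) = 7 * ((4 * d : ℕ) : ℝ) := by
    push_cast
    ring
  have h5 : ∀ b : degreeLT k (2 * d), (∑ v : {v : T // ψ v = b},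
      if ∃ m, 1 ≤ m ∧ R * m ≤ #(tor (E v.1) m) then (1 : ℝ) else 0) ≤
      C' * (R : ℝ) ^ (-(c * R)) * (Fintype.card k : ℝ) ^ (2 * (4 * d)) := by
    intro b
    have hB : ∀ v : {v : T // ψ v = b}, (w v.1).2 = (w v.1).2 %ₘ X ^ (4 * d) + X ^ (4 * d) * (b : k[X]) := by
      rintro ⟨v, rfl⟩
      exact hdiv _
    have h6 := H k h2 (4 * d) (by omega) (X ^ 3 + C (X ^ (4 * d) * (b : k[X])))
      (monic_X_pow_add_C _ (by norm_num)) (natDegree_X_pow_add_C) R hR {v : T // ψ v = b}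
      (fun v => (⟨(w v.1).1, hb3 v.1⟩, ⟨(w v.1).2 %ₘ X ^ (4 * d), hb1 _⟩)) (by
        intro v v' hvv
        apply Subtype.ext
        apply hw
        have h7 : (w v.1).1 = (w v'.1).1 := congrArg (fun z => (z.1 : k[X])) hvv
        have h8 : (w v.1).2 %ₘ X ^ (4 * d) = (w v'.1).2 %ₘ X ^ (4 * d) :=
          congrArg (fun z => (z.2 : k[X])) hvv
        refine Prod.ext h7 ?_
        rw [hB v, hB v', h8])
      (fun v => ((E v.1).trans (hB v) hK).shift)
    refine le_trans (le_of_eq ?_) h6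
    refine Finset.sum_congr rfl fun v _ => ?_
    simp only [trans_shift_tor]
    congr
  have hcard : (Fintype.card (degreeLT k (2 * d)) : ℝ) = (Fintype.card k : ℝ) ^ (2 * d) := by
    rw [← Nat.card_eq_fintype_card, Nat.card_congr (degreeLTEquiv k (2 * d)).toEquiv,
      Nat.card_eq_fintype_card, Fintype.card_fun, Fintype.card_fin]
    push_cast
    rfl
  rw [← Fintype.sum_fiberwise ψ]
  refine (sum_le_sum fun b _ => h5 b).trans (le_of_eq ?_)
  rw [sum_const, card_univ, nsmul_eq_mul, hcard]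
  have h8 : (Fintype.card k : ℝ) ^ (10 * d) = (Fintype.card k : ℝ) ^ (2 * d) *
      (Fintype.card k : ℝ) ^ (2 * (4 * d)) := by
    rw [← pow_add]
    congr 1
    ring
  rw [h8]
  ring

end Pool.Agent.N430.RT
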